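import Pool.Agent.H916T.Tate

/-!
The case where `-1` is a power of `p`.
-/

namespace Pool.Agent.H916T

open Finset Pool.Agent.H916R2

variable {M : ℕ}

lemma super_induct [NeZero M] (hM : 4 ≤ M) {Q : Type*} [AddCommGroup Q] {c : ZMod M → Q}
    (hneg : ∀ a, c (-a) = - c a)
    (hall : ∀ u v u' v' : ZMod M, u ≠ 0 → v ≠ 0 → u' ≠ 0 → v' ≠ 0 → u + v = u' + v' →
      c u + c v = c u' + c v') :
    ∀ (n : ℕ) (s : Multiset (ZMod M)), Multiset.card s = 2 * n → (0 : ZMod M) ∉ s →
      ∀ x : ZMod M, x ≠ 0 → x ≠ s.sum → (s.map c).sum = c x + c (s.sum - x) := by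
  intro n
  induction n with
  | zero =>
    intro s hs _ x _ _
    rw [mul_zero, Multiset.card_eq_zero] at hs
    subst hs
    simp [hneg]
  | succ n ih =>
    intro s hs h0 x hx hxs
    obtain ⟨a, ha⟩ : ∃ a, a ∈ s := Multiset.card_pos_iff_exists_mem.mp (by omega)
    obtain ⟨s1, hs1⟩ := Multiset.exists_cons_of_mem ha
    have hc1 : Multiset.card s1 = 2 * n + 1 := by
      rw [hs1, Multiset.card_cons] at hs; omega
    obtain ⟨b, hb⟩ : ∃ b, b ∈ s1 := Multiset.card_pos_iff_exists_mem.mp (by omega)
    obtain ⟨s2, hs2⟩ := Multiset.exists_cons_of_mem hb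
    have hc2 : Multiset.card s2 = 2 * n := by
      rw [hs2, Multiset.card_cons] at hc1; omega
    have ha0 : a ≠ 0 := fun h => h0 (h ▸ ha)
    have hb0 : b ≠ 0 := fun h => h0 (by rw [hs1]; exact Multiset.mem_cons_of_mem (h ▸ hb))
    have h02 : (0 : ZMod M) ∉ s2 := fun h => h0 (by
      rw [hs1, hs2]; exact Multiset.mem_cons_of_mem (Multiset.mem_cons_of_mem h))
    have hsum : s.sum = a + (b + s2.sum) := by rw [hs1, hs2, Multiset.sum_cons, Multiset.sum_cons]
    have hmap : (s.map c).sum = c a + (c b + (s2.map c).sum) := by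
      rw [hs1, hs2, Multiset.map_cons, Multiset.sum_cons, Multiset.map_cons, Multiset.sum_cons]
    have hsx : s.sum - x ≠ 0 := fun h => hxs (sub_eq_zero.mp h).symm
    have IH := ih s2 hc2 h02
    by_cases h1 : s2.sum + a = 0
    · by_cases h2 : s2.sum + b = 0
      · -- a = b = - sum s2
        have hab : b = a := by linear_combination h2 - h1
        have hσ : s.sum = a := by rw [hsum]; linear_combination h2
        obtain ⟨y, hy⟩ : ∃ y : ZMod M, y ∉ ({0, -a, -(2 * a)} : Finset (ZMod M)) := by
          by_contra hcon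
          push Not at hcon
          have h3 : (univ : Finset (ZMod M)) ⊆ {0, -a, -(2 * a)} := fun y _ => hcon y
          have h4 := Finset.card_le_card h3
          have h5 : ({0, -a, -(2 * a)} : Finset (ZMod M)).card ≤ 3 := Finset.card_le_three
          rw [Finset.card_univ, ZMod.card] at h4
          omega
        simp only [Finset.mem_insert, Finset.mem_singleton, not_or] at hy
        obtain ⟨hy0, hy1, hy2⟩ := hy
        have e1 : s2.sum = -a := by linear_combination h1
        have i1 := IH y hy0 (by rw [e1]; exact hy1)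
        rw [e1] at i1
        have hy3 : y + 2 * a ≠ 0 := fun h => hy2 (by linear_combination h)
        have hy4 : -a - y ≠ 0 := fun h => hy1 (by linear_combination -h)
        have r1 := hall y a (-a) (y + 2 * a) hy0 ha0 (neg_ne_zero.mpr ha0) hy3 (by ring)
        have r2 := hall (-a - y) (y + 2 * a) x (s.sum - x) hy4 hy3 hx hsx (by rw [hσ]; ring)
        rw [hmap, i1, hab, ← r2]
        rw [hneg] at r1
        have r3 : c y + c a + c a = c (y + 2 * a) := by rw [r1]; abel
        rw [← r3]; abel
      · -- use b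
        have hne : -b ≠ s2.sum := fun h => h2 (by rw [← h]; ring)
        have i1 := IH (-b) (neg_ne_zero.mpr hb0) hne
        have e1 : s2.sum - -b = s2.sum + b := by ring
        rw [e1, hneg] at i1
        have r1 := hall (s2.sum + b) a x (s.sum - x) h2 ha0 hx hsx (by rw [hsum]; ring)
        rw [hmap, i1, ← r1]
        abel
    · have hne : -a ≠ s2.sum := fun h => h1 (by rw [← h]; ring)
      have i1 := IH (-a) (neg_ne_zero.mpr ha0) hne
      have e1 : s2.sum - -a = s2.sum + a := by ring
      rw [e1, hneg] at i1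
      have r1 := hall (s2.sum + a) b x (s.sum - x) h1 hb0 hx hsx (by rw [hsum]; ring)
      rw [hmap, i1, ← r1]
      abel

lemma super_W {p r : ℕ} [NeZero M] (hr : (p : ZMod M) ^ r = -1) (a : ZMod M) : W p a = 0 := by
  have h1 := W_pow_mul p r a
  rw [hr, neg_one_mul, W_neg] at h1
  omega

theorem super_sum {p r : ℕ} [NeZero M] (hM : 4 ≤ M) (hp : p.Coprime M)
    (hr : (p : ZMod M) ^ r = -1) {Q : Type*} [AddCommGroup Q] {c : ZMod M → Q}
    (hneg : ∀ a, c (-a) = - c a)
    (h4 : ∀ s, SurfaceTate p M s → (s.map c).sum = 0) {s : Multiset (ZMod M)}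
    (h0 : (0 : ZMod M) ∉ s) (heven : Even (Multiset.card s)) (hsum : s.sum = 0) :
    (s.map c).sum = 0 := by
  obtain ⟨n, hn⟩ := heven
  have h1 : (1 : ZMod M) ≠ 0 := by
    have : Fact (1 < M) := ⟨by omega⟩
    exact one_ne_zero
  have h2 := super_induct hM hneg (fun u v u' v' hu hv hu' hv' h => by
    have h3 := h4 _ (surface_of hp hu hv (neg_ne_zero.mpr hu') (neg_ne_zero.mpr hv')
      (by linear_combination h) (fun t => by
        rw [super_W hr, super_W hr, super_W hr, super_W hr]; norm_num))
    simp only [Multiset.insert_eq_cons, Multiset.map_cons, Multiset.map_singleton,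
      Multiset.sum_cons, Multiset.sum_singleton, hneg] at h3
    rw [← sub_eq_zero, ← h3]
    abel) n s (by omega) h0 1 h1 (by rw [hsum]; exact h1)
  rw [h2, hsum, zero_sub, hneg, add_neg_cancel]

end Pool.Agent.H916T
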