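import Pool.Agent.H916T.Ordinary
import Pool.Agent.H916T.Super

/-!
The main theorem.
-/

namespace Pool.Agent.H916T

open Finset Pool.Agent.H916R2

/-- the base family of the main theorem -/
abbrev Base (p m ℓ M : ℕ) (t : Multiset (ZMod M)) : Prop :=
  SurfaceTate p M t ∨ (ℓ ^ 2 ∣ m ∧ Standard ℓ M t)

section

variable {M ℓ : ℕ} [NeZero M]

set_option linter.unusedSectionVars false

lemma Standard.good {s : Multiset (ZMod M)} (hℓM : ℓ ∣ M) (h : Standard ℓ M s) :
    (0 : ZMod M) ∉ s ∧ Even (Multiset.card s) := by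
  obtain ⟨hodd, a, ha, rfl⟩ := h
  constructor
  · rw [Multiset.mem_cons, not_or]
    refine ⟨Ne.symm (neg_ne_zero.mpr ha), ?_⟩
    intro h
    obtain ⟨i, _, hi⟩ := Multiset.mem_map.mp h
    exact mem_coset_ne_zero hℓM ha i hi
  · rw [Multiset.card_cons, Multiset.card_map, Multiset.card_range]
    exact hodd.add_one

lemma Standard.neg {s : Multiset (ZMod M)} (hℓM : ℓ ∣ M) (h : Standard ℓ M s) :
    Standard ℓ M (s.map Neg.neg) := by
  obtain ⟨hodd, a, ha, rfl⟩ := h
  refine ⟨hodd, -a, by rw [mul_neg]; exact neg_ne_zero.mpr ha, ?_⟩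
  rw [Multiset.map_cons, mul_neg]
  congr 1
  rw [Multiset.map_map]
  have h3 := coset_sum_unit (m := M) (fun x => ({x} : Multiset (ZMod M)))
    (Nat.mul_div_cancel' hℓM) (-1 : (ZMod M)ˣ) a
  simp only [Units.val_neg, Units.val_one, neg_mul, one_mul] at h3
  rw [sum_singleton_range ℓ (fun i : ℕ => -(a + (i : ZMod M) * ((M / ℓ : ℕ) : ZMod M))),
    sum_singleton_range ℓ (fun i : ℕ => -a + (i : ZMod M) * ((M / ℓ : ℕ) : ZMod M))] at h3
  exact h3

end

lemma base_good {p m ℓ M : ℕ} [NeZero M] (hℓM : ℓ ^ 2 ∣ m → ℓ ∣ M) (s : Multiset (ZMod M))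
    (h : Base p m ℓ M s) : (0 : ZMod M) ∉ s ∧ Even (Multiset.card s) := by
  rcases h with h | ⟨h1, h2⟩
  · exact ⟨h.1.1, h.1.2.1⟩
  · exact h2.good (hℓM h1)

lemma base_neg {p m ℓ M : ℕ} [NeZero M] (hp : p.Coprime M) (hℓM : ℓ ^ 2 ∣ m → ℓ ∣ M)
    (s : Multiset (ZMod M)) (h : Base p m ℓ M s) : Base p m ℓ M (s.map Neg.neg) := by
  rcases h with h | ⟨h1, h2⟩
  · exact Or.inl (h.neg hp)
  · exact Or.inr ⟨h1, h2.neg (hℓM h1)⟩

lemma sq_dvd {m ℓ : ℕ} (h : ℓ ^ 2 ∣ m) : ℓ ∣ m := dvd_trans (dvd_pow_self ℓ two_ne_zero) h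

/-- the distribution relations for odd primes in the quotient -/
lemma quotient_dist {p m ℓ k N : ℕ} [NeZero (N * m)] (hℓ : ℓ.Prime)
    (hm : m = ℓ ^ k ∨ m = 2 * ℓ ^ k) {q d : ℕ} (hq : q.Prime) (hq2 : q ≠ 2) (hqd : q * d = m)
    (a : ZMod m) :
    ∑ i ∈ range q, H916T.cQ (N * m) (Base p m ℓ (N * m)) (iota N (a + (i : ZMod m) * (d : ZMod m))) =
      H916T.cQ (N * m) (Base p m ℓ (N * m)) (iota N ((q : ZMod m) * a)) := by
  have hm0 : NeZero m := ⟨fun h => NeZero.ne (N * m) (by rw [h, mul_zero])⟩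
  have hqℓ : q = ℓ := by
    have hqm : q ∣ m := Dvd.intro d hqd
    have hqk : q ∣ ℓ ^ k := by
      rcases hm with h | h
      · rwa [h] at hqm
      · rw [h] at hqm
        exact (hq.dvd_mul.mp hqm).resolve_left fun h2 =>
          hq2 ((Nat.prime_dvd_prime_iff_eq hq Nat.prime_two).mp h2)
    exact (Nat.prime_dvd_prime_iff_eq hq hℓ).mp (hq.dvd_of_dvd_pow hqk)
  have hqM : q * (N * d) = N * m := by rw [← hqd]; ring
  have e1 : (iota N ((q : ZMod m) * a) : ZMod (N * m)) = (q : ZMod (N * m)) * iota N a :=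
    iota_natMul rfl q a
  have e2 : ∀ i : ℕ, (iota N (a + (i : ZMod m) * (d : ZMod m)) : ZMod (N * m)) =
      iota N a + (i : ZMod (N * m)) * ((N * d : ℕ) : ZMod (N * m)) := by
    intro i
    rw [iota_add rfl]
    congr 1
    have : (i : ZMod m) * (d : ZMod m) = ((i * d : ℕ) : ZMod m) := by push_cast; rfl
    rw [this, iota_natCast rfl]
    push_cast; ring
  simp only [e1, e2]
  by_cases htriv : 2 * ((q : ZMod (N * m)) * iota N a) = 0
  · rw [cQ_half (by rw [← two_mul]; exact htriv)]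
    have h := eps_dist_trivial hq hqM (iota N a) htriv
    have h5 : ∑ i ∈ range q, H916T.cQ (N * m) (Base p m ℓ (N * m))
        (iota N a + (i : ZMod (N * m)) * ((N * d : ℕ) : ZMod (N * m))) =
        QuotientAddGroup.mk (∑ i ∈ range q,
          eps (iota N a + (i : ZMod (N * m)) * ((N * d : ℕ) : ZMod (N * m)))) := by
      rw [QuotientAddGroup.mk_sum]
      rfl
    rw [h5, h, QuotientAddGroup.mk_zero]
  · have hk2 : 2 ≤ k := by
      by_contra hcon
      apply htriv
      have h1 : ((2 * q : ℕ) : ZMod m) = 0 := by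
        rw [ZMod.natCast_eq_zero_iff, hqℓ]
        have hk1 : k = 0 ∨ k = 1 := by omega
        rcases hk1 with rfl | rfl
        · rcases hm with h | h
          · rw [h, pow_zero]; exact one_dvd _
          · rw [h, pow_zero, mul_one]; exact Dvd.intro _ rfl
        · rcases hm with h | h
          · rw [h, pow_one]; exact Dvd.intro_left _ rfl
          · rw [h, pow_one]
      have h2 : (iota N (((2 * q : ℕ) : ZMod m) * a) : ZMod (N * m)) =
          ((2 * q : ℕ) : ZMod (N * m)) * iota N a := iota_natMul rfl (2 * q) a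
      rw [h1, zero_mul, iota_zero] at h2
      rw [h2]; push_cast; ring
    have hsq : ℓ ^ 2 ∣ m := by
      rcases hm with h | h
      · rw [h]; exact pow_dvd_pow _ hk2
      · rw [h]; exact (pow_dvd_pow _ hk2).mul_left 2
    have hne : (q : ZMod (N * m)) * iota N a ≠ 0 := fun h => htriv (by rw [h, mul_zero])
    have hMq : N * m / q = N * d := by
      rw [← hqM]; exact Nat.mul_div_cancel_left _ hq.pos
    have hstd : Standard ℓ (N * m) (-((q : ZMod (N * m)) * iota N a) ::ₘ
        (Multiset.range q).map fun i : ℕ =>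
          iota N a + (i : ZMod (N * m)) * ((N * d : ℕ) : ZMod (N * m))) := by
      refine ⟨hℓ.odd_of_ne_two (hqℓ ▸ hq2), iota N a, hqℓ ▸ hne, ?_⟩
      rw [← hqℓ, hMq]
    have h := H916T.cQ_sum_eq_zero (H916T.Generated.ofBase (base := Base p m ℓ (N * m)) _
      (Or.inr ⟨hsq, hstd⟩))
    rw [Multiset.map_cons, Multiset.sum_cons, H916T.cQ_neg, Multiset.map_map] at h
    have h6 : ((Multiset.range q).map (H916T.cQ (N * m) (Base p m ℓ (N * m)) ∘
        fun i : ℕ => iota N a + (i : ZMod (N * m)) * ((N * d : ℕ) : ZMod (N * m)))).sum =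
        ∑ i ∈ range q, H916T.cQ (N * m) (Base p m ℓ (N * m))
          (iota N a + (i : ZMod (N * m)) * ((N * d : ℕ) : ZMod (N * m))) := rfl
    rw [h6] at h
    exact (neg_add_eq_zero.mp h).symm

lemma two_mul_level {p m' : ℕ} (hodd : ¬ 2 ∣ m') (hp : p.Coprime (2 * m')) {j : ℕ}
    (h : (p : ZMod m') ^ j = -1) : (p : ZMod (2 * m')) ^ j = -1 := by
  have h1 : m' ∣ p ^ j + 1 := by
    rw [← ZMod.natCast_eq_zero_iff]; push_cast; rw [h]; ring
  have h2 : 2 ∣ p ^ j + 1 := by
    have hp2 : ¬ 2 ∣ p := by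
      intro h2
      have := Nat.dvd_gcd h2 (Dvd.intro m' rfl : 2 ∣ 2 * m')
      rw [Nat.Coprime.gcd_eq_one hp] at this
      omega
    have hp3 : Odd p := Nat.odd_iff.mpr (by omega)
    have := (hp3.pow (n := j)).add_one
    exact this.two_dvd
  have h3 : 2 * m' ∣ p ^ j + 1 :=
    Nat.Coprime.mul_dvd_of_dvd_of_dvd ((Nat.prime_two.coprime_iff_not_dvd).mpr hodd) h2 h1
  rw [← ZMod.natCast_eq_zero_iff] at h3
  push_cast at h3
  linear_combination h3

theorem main (p m ℓ k : ℕ) (hp : p.Prime) (hℓ : ℓ.Prime) (hm : m = ℓ ^ k ∨ m = 2 * ℓ ^ k)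
    (hpm : p.Coprime m) : ∃ N : ℕ, 0 < N ∧ p.Coprime N ∧
      ∀ s : Multiset (ZMod m), IsTate p m s → s ≠ 0 →
        H916T.Generated (N * m) (Base p m ℓ (N * m))
          (s.map fun a => ((N * a.val : ℕ) : ZMod (N * m))) := by
  have hmpos : 0 < m := by
    have := pow_pos hℓ.pos k
    rcases hm with h | h <;> rw [h] <;> omega
  have hmz : NeZero m := ⟨hmpos.ne'⟩
  by_cases hsuper : ∃ j : ℕ, (p : ZMod m) ^ j = -1
  · -- supersingular case
    obtain ⟨j, hj⟩ := hsuper
    set J := j + orderOf (p : ZMod m) with hJdef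
    have hJ0 : 0 < J := by have := order_pos hpm; omega
    have hJ : (p : ZMod m) ^ J = -1 := by rw [hJdef, pow_add, H916T.pow_order, mul_one, hj]
    have hdvd : m ∣ p ^ (J * 3) + 1 := by
      rw [← ZMod.natCast_eq_zero_iff]
      push_cast
      rw [pow_mul, hJ]; ring
    obtain ⟨N, hN⟩ := hdvd
    have hNM : N * m = p ^ (J * 3) + 1 := by rw [hN]; ring
    have hN0 : 0 < N := Nat.pos_of_ne_zero (by rintro rfl; simp at hNM)
    have hNz : NeZero (N * m) := ⟨by rw [hNM]; omega⟩
    have hpM : p.Coprime (N * m) := by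
      rw [hNM, hp.coprime_iff_not_dvd]
      intro h
      have h1 : p ∣ p ^ (J * 3) := dvd_pow_self p (by omega)
      exact hp.one_lt.ne' (Nat.dvd_one.mp ((Nat.dvd_add_right h1).mp h))
    have hM4 : 4 ≤ N * m := by
      rw [hNM]
      have : 2 ^ 3 ≤ p ^ (J * 3) := by
        calc 2 ^ 3 ≤ 2 ^ (J * 3) := Nat.pow_le_pow_right (by norm_num) (by omega)
          _ ≤ p ^ (J * 3) := Nat.pow_le_pow_left hp.two_le _
      omega
    have hr : (p : ZMod (N * m)) ^ (J * 3) = -1 := by
      have : ((p ^ (J * 3) + 1 : ℕ) : ZMod (N * m)) = 0 := by rw [← hNM]; simp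
      push_cast at this
      linear_combination this
    have hℓM : ℓ ^ 2 ∣ m → ℓ ∣ N * m := fun h => (sq_dvd h).mul_left N
    refine ⟨N, hN0, Nat.Coprime.coprime_dvd_right (Dvd.intro m rfl) hpM, ?_⟩
    intro s hs hne
    have h0 : (0 : ZMod (N * m)) ∉ s.map (iota N : ZMod m → ZMod (N * m)) := by
      intro h'
      obtain ⟨b, hb, hb0⟩ := Multiset.mem_map.mp h'
      rw [iota_eq_zero rfl hb0] at hb
      exact hs.1 hb
    have hev : Even (Multiset.card (s.map (iota N : ZMod m → ZMod (N * m)))) := by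
      rw [Multiset.card_map]; exact hs.2.1
    have hsum0 : (s.map (iota N : ZMod m → ZMod (N * m))).sum = 0 := by
      have hgen : ∀ s : Multiset (ZMod m), (s.map (iota N : ZMod m → ZMod (N * m))).sum =
          iota N s.sum := by
        intro s
        induction s using Multiset.induction_on with
        | empty => simp [iota_zero]
        | cons a s ih =>
          rw [Multiset.map_cons, Multiset.sum_cons, ih, Multiset.sum_cons, iota_add rfl]
      rw [hgen, hs.2.2.1, iota_zero]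
    apply H916T.generated_of_cQ_sum (fun t ht => base_good hℓM t ht)
      (fun t ht => base_neg hpM hℓM t ht) h0 hev
    · intro h
      exact hne (Multiset.map_eq_zero.mp h)
    · exact super_sum hM4 hpM hr (fun a => H916T.cQ_neg a)
        (fun t ht => H916T.cQ_sum_eq_zero (H916T.Generated.ofBase t (Or.inl ht))) h0 hev hsum0
  · -- the other case
    push Not at hsuper
    have hm2 : 2 < m := by
      by_contra hcon
      apply hsuper 0
      rw [pow_zero]
      have h2 : ((2 : ℕ) : ZMod m) = 0 := by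
        rw [ZMod.natCast_eq_zero_iff]
        have : m = 1 ∨ m = 2 := by omega
        rcases this with h | h <;> rw [h]
        exact one_dvd _
      push_cast at h2
      linear_combination h2
    set f := orderOf (p : ZMod m) with hfdef
    have hf0 : 0 < f := order_pos hpm
    have hpf : 1 < p ^ f := Nat.one_lt_pow hf0.ne' hp.one_lt
    obtain ⟨N, hN⟩ : ∃ N, p ^ f = N + 1 := ⟨p ^ f - 1, by omega⟩
    have hN0 : 0 < N := by omega
    have hmN : m ∣ N := by
      have h1 : ((p ^ f : ℕ) : ZMod m) = ((1 : ℕ) : ZMod m) := by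
        push_cast; exact H916T.pow_order p
      rw [hN] at h1
      have h2 : ((N : ℕ) : ZMod m) = 0 := by push_cast at h1; linear_combination h1
      rwa [ZMod.natCast_eq_zero_iff] at h2
    have hNz : NeZero (N * m) := ⟨Nat.mul_ne_zero hN0.ne' hmpos.ne'⟩
    have hpN : p.Coprime N := by
      rw [hp.coprime_iff_not_dvd]
      intro h
      have h1 : p ∣ N + 1 := by rw [← hN]; exact dvd_pow_self p hf0.ne'
      exact hp.one_lt.ne' (Nat.dvd_one.mp ((Nat.dvd_add_right h).mp h1))
    have hpM : p.Coprime (N * m) := Nat.Coprime.mul_right hpN hpm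
    have hℓM : ℓ ^ 2 ∣ m → ℓ ∣ N * m := fun h => (sq_dvd h).mul_left N
    refine ⟨N, hN0, hpN, ?_⟩
    intro s hs hne
    obtain ⟨g, hg, hgp, hgs⟩ := exists_g (c := H916T.cQ (N * m) (Base p m ℓ (N * m))) hN hmN hpM
      (fun a => H916T.cQ_neg a) (fun a ha => H916T.cQ_half ha)
      (fun t ht => H916T.cQ_sum_eq_zero (H916T.Generated.ofBase t (Or.inl ht)))
      (fun q d hq hq2 hqd a => quotient_dist hℓ hm hq hq2 hqd a)
    have hsum : (s.map g).sum = 0 := by
      -- prime power case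
      have hpp : ∀ k : ℕ, m = ℓ ^ k → (s.map g).sum = 0 := by
        intro k hk
        subst hk
        exact ordinary_sum (one_mul _) (by omega) (gp_prime_pow hℓ) (gp_prime_pow hℓ) hpm hsuper hs
          hg hgp
      rcases hm with h | h
      · exact hpp k h
      · by_cases h2 : ℓ = 2
        · exact hpp (k + 1) (by rw [h, h2, pow_succ]; ring)
        · have hz : NeZero (ℓ ^ k) := ⟨(pow_pos hℓ.pos k).ne'⟩
          have hodd : ¬ 2 ∣ ℓ ^ k := by
            intro h'
            exact h2 ((Nat.prime_dvd_prime_iff_eq Nat.prime_two hℓ).mp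
              (Nat.prime_two.dvd_of_dvd_pow h')).symm
          subst h
          exact ordinary_sum (m' := ℓ ^ k) (e := 2) rfl (by omega)
            (gp_two_mul hodd (gp_prime_pow hℓ) rfl) (gp_prime_pow hℓ) hpm
            (fun j hj => hsuper j (two_mul_level hodd hpm hj)) hs hg hgp
    have h0 : (0 : ZMod (N * m)) ∉ s.map (iota N : ZMod m → ZMod (N * m)) := by
      intro h'
      obtain ⟨b, hb, hb0⟩ := Multiset.mem_map.mp h'
      rw [iota_eq_zero rfl hb0] at hb
      exact hs.1 hb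
    apply H916T.generated_of_cQ_sum (fun t ht => base_good hℓM t ht)
      (fun t ht => base_neg hpM hℓM t ht) h0
    · rw [Multiset.card_map]; exact hs.2.1
    · intro h
      exact hne (Multiset.map_eq_zero.mp h)
    · have h1 := hgs s hs.2.2.1
      rw [Multiset.map_map]
      rw [hsum] at h1
      exact h1

end Pool.Agent.H916T
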