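import Mathlib

/-!
# Tate characters of Fermat varieties

Let `m` be prime to the prime `p`. The primitive cohomology in degree `n` (`n` even) of the Fermat
variety `x_0 ^ m + ... + x_(n+1) ^ m = 0` over an algebraic closure of the field with `p` elements
splits into lines indexed by the tuples of `n + 2` nonzero residues mod `m` with sum zero (up to
order: multisets). Frobenius acts on these lines by Jacobi sums. The lines on which some power of
it acts as a power of `p` are, by Stickelberger's theorem, those of the *Tate characters*.
-/

namespace Pool.Agent.H916T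

/-- A Tate character of degree `m` in characteristic `p`: a multiset `s` of an even number of
nonzero residues modulo `m`, with sum zero, such that for every unit `t` modulo `m` the
representatives in `{1, ..., m - 1}` of the residues `p ^ j * t * a`, where `a ∈ s` and
`0 ≤ j < f`, `f` being the order of `p` modulo `m`, add up to `f * m * |s| / 2`. -/
def IsTate (p m : ℕ) (s : Multiset (ZMod m)) : Prop :=
  (0 : ZMod m) ∉ s ∧ Even (Multiset.card s) ∧ s.sum = 0 ∧
    ∀ t : (ZMod m)ˣ,
      2 * ∑ j ∈ Finset.range (orderOf (p : ZMod m)),
          (s.map fun a => ((p : ZMod m) ^ j * ((t : ZMod m) * a)).val).sum =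
        orderOf (p : ZMod m) * (m * Multiset.card s)

/-- The Tate characters with four entries, i.e. those of Fermat surfaces. -/
def SurfaceTate (p m : ℕ) (s : Multiset (ZMod m)) : Prop :=
  IsTate p m s ∧ Multiset.card s = 4

/-- The standard character `{a, a + m/ℓ, a + 2 * (m/ℓ), ..., a + (ℓ - 1) * (m/ℓ), - ℓ * a}`, where
`ℓ` is odd and `ℓ * a ≠ 0`. -/
def Standard (ℓ m : ℕ) (s : Multiset (ZMod m)) : Prop :=
  Odd ℓ ∧ ∃ a : ZMod m, (ℓ : ZMod m) * a ≠ 0 ∧
    s = -((ℓ : ZMod m) * a) ::ₘ
      (Multiset.range ℓ).map fun i : ℕ => a + (i : ZMod m) * ((m / ℓ : ℕ) : ZMod m)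

/-- The smallest family of multisets of residues modulo `m` which contains the members of a given
family `base` and the pairs `{a, -a}`, `a ≠ 0`, and which is closed under union and under removing
a pair `{a, -a}`. -/
inductive Generated (m : ℕ) (base : Multiset (ZMod m) → Prop) : Multiset (ZMod m) → Prop
  | ofBase (s : Multiset (ZMod m)) (hs : base s) : Generated m base s
  | pair (a : ZMod m) (ha : a ≠ 0) : Generated m base {a, -a}
  | join (s t : Multiset (ZMod m)) (hs : Generated m base s) (ht : Generated m base t) :
      Generated m base (s + t)
  | cancel (a : ZMod m) (s : Multiset (ZMod m)) (h : Generated m base (a ::ₘ -a ::ₘ s)) :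
      Generated m base s

end Pool.Agent.H916T
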