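import Pool.Agent.H916R2.Relations
import Pool.Agent.H916T.Defs

/-!
From relations in the odd quotient to membership in the closure `Generated`.
-/

namespace Pool.Agent.H916T

open Finset Pool.Agent.H916R2

variable {m : ℕ} {base : Multiset (ZMod m) → Prop}

/-- Cancelling a multiset with trivial odd function. -/
lemma uncancel [NeZero m] : ∀ (n : ℕ) (u s : Multiset (ZMod m)), Multiset.card u = n →
    (0 : ZMod m) ∉ u → Even (Multiset.card u) → EE u = 0 → H916T.Generated m base (u + s) →
    H916T.Generated m base s := by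
  intro n
  induction n using Nat.strong_induction_on with
  | _ n ih =>
  intro u s hcard h0 heven hE hg
  rcases Multiset.empty_or_exists_mem u with rfl | ⟨a, ha⟩
  · rwa [zero_add] at hg
  -- removal of a pair
  have remove : ∀ (b : ZMod m) (u' : Multiset (ZMod m)), u = b ::ₘ -b ::ₘ u' →
      H916T.Generated m base s := by
    intro b u' hu
    rw [hu] at hcard h0 heven hE hg
    have hc : Multiset.card u' + 2 = n := by
      rw [← hcard]; simp
    refine ih (Multiset.card u') (by omega) u' s rfl ?_ ?_ ?_ ?_
    · intro h; exact h0 (Multiset.mem_cons_of_mem (Multiset.mem_cons_of_mem h))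
    · simp only [Multiset.card_cons] at heven
      rw [Nat.even_add_one, Nat.even_add_one, not_not] at heven
      exact heven
    · rw [EE_cons, EE_cons, eps_neg] at hE
      simpa using hE
    · rw [Multiset.cons_add, Multiset.cons_add] at hg
      exact H916T.Generated.cancel b _ hg
  by_cases hex : ∃ b ∈ u, b + b ≠ 0
  · obtain ⟨b, hb, hbb⟩ := hex
    have hne : b ≠ -b := by
      intro h
      apply hbb
      nth_rewrite 2 [h]
      exact add_neg_cancel b
    have h1 := congrFun hE b
    rw [EE_apply, Pi.zero_apply] at h1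
    have h2 : 0 < u.count b := Multiset.count_pos.mpr hb
    have h3 : 0 < u.count (-b) := by omega
    obtain ⟨u1, hu1⟩ := Multiset.exists_cons_of_mem hb
    have h4 : -b ∈ u1 := by
      have : -b ∈ u := Multiset.count_pos.mp h3
      rw [hu1] at this
      rcases Multiset.mem_cons.mp this with h | h
      · exact absurd h.symm hne
      · exact h
    obtain ⟨u2, hu2⟩ := Multiset.exists_cons_of_mem h4
    exact remove b u2 (by rw [hu1, hu2])
  · push Not at hex
    -- all elements are the same element of order two
    have haa := hex a ha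
    have ha0 : a ≠ 0 := fun h => h0 (h ▸ ha)
    obtain ⟨u1, hu1⟩ := Multiset.exists_cons_of_mem ha
    rcases Multiset.empty_or_exists_mem u1 with h | ⟨b, hb⟩
    · exfalso
      rw [hu1, h] at heven
      simp at heven
    · have hbu : b ∈ u := by rw [hu1]; exact Multiset.mem_cons_of_mem hb
      have hbb := hex b hbu
      have hb0 : b ≠ 0 := fun h => h0 (h ▸ hbu)
      have hab : a = b := half_unique haa hbb ha0 hb0
      have hna : -a = a := neg_eq_of_add_eq_zero_right haa
      obtain ⟨u2, hu2⟩ := Multiset.exists_cons_of_mem hb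
      exact remove a u2 (by rw [hu1, hu2, hna, hab])

lemma Generated.good (hb : ∀ s, base s → (0 : ZMod m) ∉ s ∧ Even (Multiset.card s))
    {s : Multiset (ZMod m)} (h : H916T.Generated m base s) :
    (0 : ZMod m) ∉ s ∧ Even (Multiset.card s) := by
  induction h with
  | ofBase s hs => exact hb s hs
  | pair a ha =>
    constructor
    · simp only [Multiset.insert_eq_cons, Multiset.mem_cons, Multiset.mem_singleton, not_or]
      exact ⟨Ne.symm ha, Ne.symm (neg_ne_zero.mpr ha)⟩
    · simp
  | join s t hs ht ihs iht =>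
    refine ⟨?_, ?_⟩
    · rw [Multiset.mem_add, not_or]; exact ⟨ihs.1, iht.1⟩
    · rw [Multiset.card_add]; exact ihs.2.add iht.2
  | cancel a s h ih =>
    refine ⟨?_, ?_⟩
    · intro h'; exact ih.1 (Multiset.mem_cons_of_mem (Multiset.mem_cons_of_mem h'))
    · have := ih.2
      simp only [Multiset.card_cons] at this
      rw [Nat.even_add_one, Nat.even_add_one, not_not] at this
      exact this

lemma Generated.neg (hbn : ∀ s, base s → base (s.map Neg.neg))
    {s : Multiset (ZMod m)} (h : H916T.Generated m base s) :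
    H916T.Generated m base (s.map Neg.neg) := by
  induction h with
  | ofBase s hs => exact H916T.Generated.ofBase _ (hbn s hs)
  | pair a ha =>
    have := H916T.Generated.pair (base := base) (-a) (neg_ne_zero.mpr ha)
    simpa using this
  | join s t hs ht ihs iht =>
    rw [Multiset.map_add]
    exact H916T.Generated.join _ _ ihs iht
  | cancel a s h ih =>
    rw [Multiset.map_cons, Multiset.map_cons] at ih
    exact H916T.Generated.cancel (-a) _ ih

/-- the pairs attached to a nonempty multiset -/
lemma generated_add_neg (s : Multiset (ZMod m)) (h0 : (0 : ZMod m) ∉ s) (hs : s ≠ 0) :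
    H916T.Generated m base (s + s.map Neg.neg) := by
  induction s using Multiset.induction_on with
  | empty => exact absurd rfl hs
  | cons a s ih =>
    have ha : a ≠ 0 := fun h => h0 (by rw [h]; exact Multiset.mem_cons_self _ _)
    have h1 : (a ::ₘ s) + (a ::ₘ s).map Neg.neg = {a, -a} + (s + s.map Neg.neg) := by
      rw [Multiset.map_cons, Multiset.insert_eq_cons]
      rw [Multiset.cons_add, Multiset.add_cons, ← Multiset.singleton_add a,
        ← Multiset.singleton_add (-a), ← Multiset.singleton_add a]
      rw [add_assoc]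
    rw [h1]
    by_cases hs0 : s = 0
    · subst hs0
      simpa using H916T.Generated.pair (base := base) a ha
    · exact H916T.Generated.join _ _ (H916T.Generated.pair a ha)
        (ih (fun h => h0 (Multiset.mem_cons_of_mem h)) hs0)

/-- the subgroup generated by the odd functions of the closure -/
def LL (m : ℕ) (base : Multiset (ZMod m) → Prop) : AddSubgroup (ZMod m → ℤ) :=
  AddSubgroup.closure {y | ∃ s, H916T.Generated m base s ∧ EE s = y}

lemma generated_of_mem_LL [NeZero m]
    (hb : ∀ s, base s → (0 : ZMod m) ∉ s ∧ Even (Multiset.card s))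
    (hbn : ∀ s, base s → base (s.map Neg.neg))
    {s : Multiset (ZMod m)} (h0 : (0 : ZMod m) ∉ s) (heven : Even (Multiset.card s)) (hs : s ≠ 0)
    (hL : EE s ∈ H916T.LL m base) : H916T.Generated m base s := by
  -- a pair exists
  obtain ⟨a, ha⟩ := Multiset.exists_mem_of_ne_zero hs
  have ha0 : a ≠ 0 := fun h => h0 (h ▸ ha)
  have key : ∀ y ∈ H916T.LL m base, ∃ t, H916T.Generated m base t ∧ EE t = y := by
    intro y hy
    induction hy using AddSubgroup.closure_induction with
    | mem y hy => exact hy
    | zero =>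
      refine ⟨{a, -a}, H916T.Generated.pair a ha0, ?_⟩
      rw [Multiset.insert_eq_cons, EE_cons]
      unfold EE
      simp [eps_neg]
    | add y z _ _ ihy ihz =>
      obtain ⟨t1, ht1, rfl⟩ := ihy
      obtain ⟨t2, ht2, rfl⟩ := ihz
      exact ⟨t1 + t2, H916T.Generated.join _ _ ht1 ht2, EE_add _ _⟩
    | neg y _ ihy =>
      obtain ⟨t1, ht1, rfl⟩ := ihy
      exact ⟨t1.map Neg.neg, ht1.neg hbn, EE_neg _⟩
  obtain ⟨t, ht, htE⟩ := key _ hL
  have htg := ht.good hb
  have h1 : H916T.Generated m base (t + (s + s.map Neg.neg)) :=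
    H916T.Generated.join _ _ ht (H916T.generated_add_neg s h0 hs)
  have h2 : t + (s + s.map Neg.neg) = (t + s.map Neg.neg) + s := by
    rw [add_comm s, add_assoc]
  rw [h2] at h1
  refine H916T.uncancel _ (t + s.map Neg.neg) s rfl ?_ ?_ ?_ h1
  · rw [Multiset.mem_add, not_or]
    refine ⟨htg.1, ?_⟩
    intro h
    obtain ⟨b, hb', hb0⟩ := Multiset.mem_map.mp h
    exact h0 (by rwa [neg_eq_zero.mp hb0] at hb')
  · rw [Multiset.card_add, Multiset.card_map]
    exact htg.2.add heven
  · rw [EE_add, EE_neg, htE, add_neg_cancel]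

/-- the odd quotient modulo the closure -/
def cQ (m : ℕ) (base : Multiset (ZMod m) → Prop) (a : ZMod m) :
    (ZMod m → ℤ) ⧸ (H916T.LL m base) :=
  QuotientAddGroup.mk (eps a)

lemma cQ_sum (s : Multiset (ZMod m)) :
    (s.map (H916T.cQ m base)).sum = QuotientAddGroup.mk (EE s) := by
  induction s using Multiset.induction_on with
  | empty => simp [EE_zero]
  | cons a s ih =>
    rw [Multiset.map_cons, Multiset.sum_cons, ih, EE_cons, QuotientAddGroup.mk_add]
    rfl

lemma cQ_sum_eq_zero {s : Multiset (ZMod m)} (h : H916T.Generated m base s) :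
    (s.map (H916T.cQ m base)).sum = 0 := by
  rw [H916T.cQ_sum, QuotientAddGroup.eq_zero_iff]
  exact AddSubgroup.subset_closure ⟨s, h, rfl⟩

/-- A multiset is generated as soon as its sum in the quotient vanishes. -/
lemma generated_of_cQ_sum [NeZero m]
    (hb : ∀ s, base s → (0 : ZMod m) ∉ s ∧ Even (Multiset.card s))
    (hbn : ∀ s, base s → base (s.map Neg.neg))
    {s : Multiset (ZMod m)} (h0 : (0 : ZMod m) ∉ s) (heven : Even (Multiset.card s)) (hs : s ≠ 0)
    (h : (s.map (H916T.cQ m base)).sum = 0) : H916T.Generated m base s := by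
  apply H916T.generated_of_mem_LL hb hbn h0 heven hs
  rw [H916T.cQ_sum, QuotientAddGroup.eq_zero_iff] at h
  exact h

lemma cQ_neg (a : ZMod m) : H916T.cQ m base (-a) = - H916T.cQ m base a := by
  unfold H916T.cQ; rw [eps_neg, QuotientAddGroup.mk_neg]

lemma cQ_half {a : ZMod m} (ha : a + a = 0) : H916T.cQ m base a = 0 := by
  unfold H916T.cQ; rw [eps_half ha, QuotientAddGroup.mk_zero]

/-- the trivial distribution relations -/
lemma eps_dist_trivial [NeZero m] {q d : ℕ} (hq : q.Prime) (hqd : q * d = m)
    (a : ZMod m) (ha : 2 * ((q : ZMod m) * a) = 0) :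
    ∑ i ∈ range q, eps (a + (i : ZMod m) * (d : ZMod m)) = 0 := by
  have hm : 0 < m := NeZero.pos m
  have hd : 0 < d := Nat.pos_of_ne_zero (by rintro rfl; simp at hqd; omega)
  have hmv : m ∣ q * (2 * a.val) := by
    rw [← ZMod.natCast_eq_zero_iff]; push_cast; rw [ZMod.natCast_zmod_val]
    linear_combination ha
  have hdv : d ∣ 2 * a.val := by
    have hmv' : q * d ∣ q * (2 * a.val) := by rw [hqd]; exact hmv
    exact Nat.dvd_of_mul_dvd_mul_left hq.pos hmv'
  obtain ⟨j, hj⟩ := hdv
  have haj : a = -a + (j : ZMod m) * (d : ZMod m) := by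
    have h1 : (2 : ZMod m) * a = (j : ZMod m) * (d : ZMod m) := by
      calc (2 : ZMod m) * a = ((2 * a.val : ℕ) : ZMod m) := by
            push_cast; rw [ZMod.natCast_zmod_val]
        _ = _ := by rw [hj]; push_cast; ring
    linear_combination h1
  have h1 : ∑ i ∈ range q, eps (a + (i : ZMod m) * (d : ZMod m)) =
      ∑ i ∈ range q, eps (-a + (i : ZMod m) * (d : ZMod m)) := by
    conv_lhs => rw [haj]
    exact coset_sum_shift_mul (fun x => eps x) hqd (-a) j
  have h2 := coset_sum_unit (m := m) (fun x => eps x) hqd (-1 : (ZMod m)ˣ) a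
  simp only [Units.val_neg, Units.val_one, neg_mul, one_mul] at h2
  have h3 : ∑ i ∈ range q, eps (-(a + (i : ZMod m) * (d : ZMod m))) =
      - ∑ i ∈ range q, eps (a + (i : ZMod m) * (d : ZMod m)) := by
    rw [← sum_neg_distrib]
    exact sum_congr rfl fun i _ => eps_neg _
  rw [h3, ← h1] at h2
  funext b
  have := congrFun h2 b
  simp only [Pi.neg_apply] at this
  simp only [Pi.zero_apply]
  omega

end Pool.Agent.H916T
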