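import Pool.Agent.H916T.Units

/-!
Balanced multisets of units and the characters.
-/

namespace Pool.Agent.H916T

open Finset Pool.Agent.H916R2

variable {m : ℕ}

/-- the signed number of `j < F` with `p ^ j * v = ± u` -/
def phi (p F : ℕ) (u v : ZMod m) : ℤ :=
  ∑ j ∈ range F, ((if (p : ZMod m) ^ j * v = u then 1 else 0) -
    (if (p : ZMod m) ^ j * v = -u then 1 else 0))

lemma phi_neg (p F : ℕ) (u v : ZMod m) : phi p F u (-v) = - phi p F u v := by
  unfold phi
  rw [← sum_neg_distrib]
  refine sum_congr rfl fun j _ => ?_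
  have h1 : ((p : ZMod m) ^ j * (-v) = u) ↔ ((p : ZMod m) ^ j * v = -u) := by
    rw [mul_neg, neg_eq_iff_eq_neg]
  have h2 : ((p : ZMod m) ^ j * (-v) = -u) ↔ ((p : ZMod m) ^ j * v = u) := by
    rw [mul_neg, neg_inj]
  simp only [h1, h2]
  ring

lemma phi_mul {p F : ℕ} (hF : (p : ZMod m) ^ F = 1) (u v : ZMod m) :
    phi p F u ((p : ZMod m) * v) = phi p F u v := by
  unfold phi
  have h1 : ∀ j, (p : ZMod m) ^ j * ((p : ZMod m) * v) = (p : ZMod m) ^ (j + 1) * v := fun j => by
    rw [pow_succ]; ring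
  simp only [h1]
  have h2 := sum_range_succ (fun j => ((if (p : ZMod m) ^ j * v = u then (1 : ℤ) else 0) -
    (if (p : ZMod m) ^ j * v = -u then 1 else 0))) F
  have h3 := sum_range_succ' (fun j => ((if (p : ZMod m) ^ j * v = u then (1 : ℤ) else 0) -
    (if (p : ZMod m) ^ j * v = -u then 1 else 0))) F
  rw [h2, hF, pow_zero] at h3
  linarith

lemma pow_invariant {p : ℕ} {Q : Type*} {h : ZMod m → Q}
    (hp : ∀ a, h ((p : ZMod m) * a) = h a) (i : ℕ) (a : ZMod m) :
    h ((p : ZMod m) ^ i * a) = h a := by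
  induction i with
  | zero => simp
  | succ i ih => rw [pow_succ', mul_assoc, hp, ih]

/-- sums of odd invariant functions over balanced multisets of units vanish -/
lemma balanced_sum {p F : ℕ} (hF0 : 0 < F) (hF : (p : ZMod m) ^ F = 1)
    (hno : ∀ j : ℕ, (p : ZMod m) ^ j ≠ -1) :
    ∀ (n : ℕ) (S : Multiset (ZMod m)ˣ), Multiset.card S = n →
      (∀ u : (ZMod m)ˣ, (S.map fun v : (ZMod m)ˣ => phi p F (u : ZMod m) (v : ZMod m)).sum = 0) →
      ∀ (Q : Type) [AddCommGroup Q] (h : ZMod m → Q), (∀ a, h (-a) = - h a) →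
        (∀ a, h ((p : ZMod m) * a) = h a) →
        (S.map fun v : (ZMod m)ˣ => h (v : ZMod m)).sum = 0 := by
  intro n
  induction n using Nat.strong_induction_on with
  | _ n ih =>
  intro S hcard hbal Q _ h hneg hp
  rcases Multiset.empty_or_exists_mem S with rfl | ⟨u, hu⟩
  · simp
  obtain ⟨S1, hS1⟩ := Multiset.exists_cons_of_mem hu
  -- the contribution of `u` itself
  have huu : 0 < phi p F (u : ZMod m) (u : ZMod m) := by
    unfold phi
    have h1 : ∀ j ∈ range F, ((if (p : ZMod m) ^ j * (u : ZMod m) = u then (1 : ℤ) else 0) -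
        (if (p : ZMod m) ^ j * (u : ZMod m) = -u then 1 else 0)) =
        (if (p : ZMod m) ^ j * (u : ZMod m) = u then (1 : ℤ) else 0) := by
      intro j _
      have h4 : ¬ ((p : ZMod m) ^ j * (u : ZMod m) = -(u : ZMod m)) := by
        intro h2
        apply hno j
        have h3 : (p : ZMod m) ^ j * (u : ZMod m) = (-1) * (u : ZMod m) := by rw [h2]; ring
        exact u.isUnit.mul_right_cancel h3
      rw [if_neg h4, sub_zero]
    rw [sum_congr rfl h1]
    apply Finset.sum_pos'
    · intro j _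
      split_ifs <;> norm_num
    · exact ⟨0, mem_range.mpr hF0, by simp⟩
  -- a partner
  have hex : ∃ v ∈ S1, phi p F (u : ZMod m) (v : ZMod m) < 0 := by
    by_contra hcon
    push Not at hcon
    have h1 := hbal u
    rw [hS1, Multiset.map_cons, Multiset.sum_cons] at h1
    have h2 : 0 ≤ (S1.map fun v : (ZMod m)ˣ => phi p F (u : ZMod m) (v : ZMod m)).sum := by
      apply Multiset.sum_nonneg
      intro x hx
      obtain ⟨v, hv, rfl⟩ := Multiset.mem_map.mp hx
      exact hcon v hv
    omega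
  obtain ⟨v, hv, hvneg⟩ := hex
  obtain ⟨S2, hS2⟩ := Multiset.exists_cons_of_mem hv
  have hj : ∃ j, (p : ZMod m) ^ j * (v : ZMod m) = -(u : ZMod m) := by
    by_contra hcon
    push Not at hcon
    have : 0 ≤ phi p F (u : ZMod m) (v : ZMod m) := by
      unfold phi
      apply Finset.sum_nonneg
      intro j _
      rw [if_neg (hcon j), sub_zero]
      split_ifs <;> norm_num
    omega
  obtain ⟨j, hj⟩ := hj
  have hpair : ∀ (R : Type) [AddCommGroup R] (k : ZMod m → R), (∀ a, k (-a) = - k a) →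
      (∀ a, k ((p : ZMod m) * a) = k a) → k (u : ZMod m) + k (v : ZMod m) = 0 := by
    intro R _ k hk1 hk2
    have h1 := pow_invariant hk2 j (v : ZMod m)
    rw [hj, hk1] at h1
    rw [← h1, add_neg_cancel]
  have hS2bal : ∀ w : (ZMod m)ˣ,
      (S2.map fun v : (ZMod m)ˣ => phi p F (w : ZMod m) (v : ZMod m)).sum = 0 := by
    intro w
    have h1 := hbal w
    rw [hS1, hS2, Multiset.map_cons, Multiset.sum_cons, Multiset.map_cons, Multiset.sum_cons,
      ← add_assoc, hpair ℤ (fun a => phi p F (w : ZMod m) a) (fun a => phi_neg p F _ a)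
        (fun a => phi_mul hF _ a), zero_add] at h1
    exact h1
  have hc : Multiset.card S2 < n := by
    rw [← hcard, hS1, hS2]; simp
  have h2 := ih _ hc S2 rfl hS2bal Q h hneg hp
  rw [hS1, hS2, Multiset.map_cons, Multiset.sum_cons, Multiset.map_cons, Multiset.sum_cons,
    ← add_assoc, hpair Q h hneg hp, h2, add_zero]

/-- multisets of units satisfying the Stickelberger relations are balanced -/
lemma balanced_of_saw [NeZero m] {p F : ℕ} (hp : p.Coprime m)
    (hSS : ∀ χ : DirichletCharacter ℂ m, χ.Odd → SS χ 1 ≠ 0) (S : Multiset (ZMod m)ˣ)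
    (hS : ∀ t : (ZMod m)ˣ, (S.map fun v : (ZMod m)ˣ =>
      ∑ j ∈ range F, saw ((p : ZMod m) ^ j * ((t : ZMod m) * (v : ZMod m)))).sum = 0)
    (u : (ZMod m)ˣ) :
    (S.map fun v : (ZMod m)ˣ => phi p F (u : ZMod m) (v : ZMod m)).sum = 0 := by
  classical
  set P : (ZMod m)ˣ := (H916T.isUnit_p hp).unit with hP
  have hPv : ((P : (ZMod m)ˣ) : ZMod m) = (p : ZMod m) := IsUnit.unit_spec _
  -- the character sums
  let A : DirichletCharacter ℂ m → ℂ := fun χ =>
    (S.map fun v : (ZMod m)ˣ => ∑ j ∈ range F, (χ ((P ^ j * v : (ZMod m)ˣ) : ZMod m))⁻¹).sum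
  have hA : ∀ χ : DirichletCharacter ℂ m, χ.Odd → A χ = 0 := by
    intro χ hχ
    have h1 : ∑ t : (ZMod m)ˣ, χ t * (((S.map fun v : (ZMod m)ˣ =>
      ∑ j ∈ range F, saw ((p : ZMod m) ^ j * ((t : ZMod m) * (v : ZMod m)))).sum : ℤ) : ℂ) = 0 := by
      apply sum_eq_zero
      intro t _
      rw [hS t]; simp
    have h2 : ∀ S : Multiset (ZMod m)ˣ, ∑ t : (ZMod m)ˣ, χ t * (((S.map fun v : (ZMod m)ˣ =>
      ∑ j ∈ range F, saw ((p : ZMod m) ^ j * ((t : ZMod m) * (v : ZMod m)))).sum : ℤ) : ℂ) =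
        (S.map fun v : (ZMod m)ˣ =>
          ∑ j ∈ range F, (χ ((P ^ j * v : (ZMod m)ˣ) : ZMod m))⁻¹).sum * SS χ 1 := by
      intro S
      induction S using Multiset.induction_on with
      | empty => simp
      | cons v S ih =>
        simp only [Multiset.map_cons, Multiset.sum_cons, Int.cast_add, mul_add, sum_add_distrib,
          add_mul]
        rw [ih]
        congr 1
        rw [sum_mul]
        have h3 : ∀ t : (ZMod m)ˣ, χ t * ((∑ j ∈ range F,
            saw ((p : ZMod m) ^ j * ((t : ZMod m) * (v : ZMod m))) : ℤ) : ℂ) =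
            ∑ j ∈ range F, χ t * (saw ((t : ZMod m) * ((P ^ j * v : (ZMod m)ˣ) : ZMod m)) : ℂ) := by
          intro t
          rw [Int.cast_sum, mul_sum]
          refine sum_congr rfl fun j _ => ?_
          congr 3
          rw [Units.val_mul, Units.val_pow_eq_pow_val, hPv]
          ring
        rw [sum_congr rfl fun t _ => h3 t, sum_comm]
        refine sum_congr rfl fun j _ => ?_
        have h4 := SS_unit χ (P ^ j * v) 1
        rw [mul_one] at h4
        rw [← h4]
        rfl
    rw [h2 S] at h1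
    exact (mul_eq_zero.mp h1).resolve_right (hSS χ hχ)
  -- orthogonality
  have horth : ∀ S : Multiset (ZMod m)ˣ,
      ((S.map fun v : (ZMod m)ˣ => phi p F (u : ZMod m) (v : ZMod m)).sum : ℂ) *
        (Nat.totient m : ℂ) = ∑ χ : DirichletCharacter ℂ m, χ (u : ZMod m) * (1 - χ (-1)) *
        (S.map fun v : (ZMod m)ˣ =>
          ∑ j ∈ range F, (χ ((P ^ j * v : (ZMod m)ˣ) : ZMod m))⁻¹).sum := by
    intro S
    induction S using Multiset.induction_on with
    | empty => simp
    | cons v S ih =>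
      simp only [Multiset.map_cons, Multiset.sum_cons, Int.cast_add, add_mul, mul_add,
        sum_add_distrib]
      rw [ih]
      congr 1
      simp only [mul_sum]
      rw [sum_comm]
      unfold phi
      rw [Int.cast_sum, sum_mul]
      refine sum_congr rfl fun j _ => ?_
      have h1 : ∀ b : ZMod m, ∑ χ : DirichletCharacter ℂ m,
          (χ ((P ^ j * v : (ZMod m)ˣ) : ZMod m))⁻¹ * χ b =
          if (p : ZMod m) ^ j * (v : ZMod m) = b then (Nat.totient m : ℂ) else 0 := by
        intro b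
        have h2 := DirichletCharacter.sum_char_inv_mul_char_eq ℂ (P ^ j * v).isUnit b
        rw [Units.val_mul, Units.val_pow_eq_pow_val, hPv] at h2
        rw [← h2]
        refine sum_congr rfl fun χ _ => ?_
        congr 1
        rw [Units.val_mul, Units.val_pow_eq_pow_val, hPv]
        have h3 : χ ((p : ZMod m) ^ j * (v : ZMod m)) *
            χ (((p : ZMod m) ^ j * (v : ZMod m))⁻¹) = 1 := by
          rw [← map_mul, ZMod.mul_inv_of_unit, map_one]
          exact ((H916T.isUnit_p hp).pow j).mul v.isUnit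
        exact (eq_inv_of_mul_eq_one_right h3).symm
      have h4 : ∀ χ : DirichletCharacter ℂ m, χ (u : ZMod m) * (1 - χ (-1)) *
          (χ ((P ^ j * v : (ZMod m)ˣ) : ZMod m))⁻¹ =
          (χ ((P ^ j * v : (ZMod m)ˣ) : ZMod m))⁻¹ * χ (u : ZMod m) -
            (χ ((P ^ j * v : (ZMod m)ˣ) : ZMod m))⁻¹ * χ (-(u : ZMod m)) := by
        intro χ
        have : χ (-(u : ZMod m)) = χ (-1) * χ (u : ZMod m) := by rw [← map_mul]; congr 1; ring
        rw [this]; ring
      rw [sum_congr rfl fun χ _ => h4 χ, sum_sub_distrib, h1, h1]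
      push_cast
      split_ifs <;> simp
  have h5 := horth S
  have h6 : ∑ χ : DirichletCharacter ℂ m, χ (u : ZMod m) * (1 - χ (-1)) *
        (S.map fun v : (ZMod m)ˣ =>
          ∑ j ∈ range F, (χ ((P ^ j * v : (ZMod m)ˣ) : ZMod m))⁻¹).sum = 0 := by
    apply sum_eq_zero
    intro χ _
    rcases χ.even_or_odd with he | ho
    · have h1 : χ (-1) = 1 := he
      rw [h1]; ring
    · have := hA χ ho
      simp only [A] at this
      rw [this, mul_zero]
  rw [h6] at h5
  have hφ : (Nat.totient m : ℂ) ≠ 0 := by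
    exact_mod_cast (Nat.totient_pos.mpr (NeZero.pos m)).ne'
  have h7 := (mul_eq_zero.mp h5).resolve_right hφ
  exact_mod_cast h7

end Pool.Agent.H916T
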