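import Pool.Agent.H916T.Tate

/-!
The homomorphism `D` and the invariant function `g`.
-/

namespace Pool.Agent.H916T

open Finset Pool.Agent.H916R2

/-- Odd distributions, the value at the element of order two being arbitrary. -/
structure OD {m : ℕ} {Q : Type*} [AddCommGroup Q] (c : ZMod m → Q) : Prop where
  neg : ∀ a, c (-a) = - c a
  zero : c 0 = 0
  odd : ∀ q d : ℕ, q.Prime → q ≠ 2 → q * d = m → ∀ a,
    ∑ i ∈ range q, c (a + (i : ZMod m) * (d : ZMod m)) = c ((q : ZMod m) * a)
  two : ∀ d : ℕ, 2 * d = m → ∀ a, c a + c (a + (d : ZMod m)) = c (2 * a) + c (d : ZMod m)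

lemma OD.comp_iota {k m0 m : ℕ} [NeZero m0] (h : k * m0 = m) {Q : Type*} [AddCommGroup Q]
    {c : ZMod m → Q} (hc : OD c) : OD (fun b : ZMod m0 => c (iota k b)) where
  neg := fun a => by rw [iota_neg h, hc.neg]
  zero := by rw [iota_zero, hc.zero]
  odd := fun q d hq hq2 hqd a => by
    have h1 := hc.odd q (k * d) hq hq2 (by rw [← h, ← hqd]; ring) (iota k a)
    rw [iota_natMul h, ← h1]
    refine sum_congr rfl fun i _ => ?_
    congr 1
    rw [iota_add h]
    congr 1
    have : (i : ZMod m0) * (d : ZMod m0) = ((i * d : ℕ) : ZMod m0) := by push_cast; rfl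
    rw [this, iota_natCast h]
    push_cast; ring
  two := fun d hd a => by
    have h1 := hc.two (k * d) (by rw [← h, ← hd]; ring) (iota k a)
    have h2 : (iota k (2 * a) : ZMod m) = 2 * iota k a := by
      have := iota_natMul h 2 a
      simpa using this
    have h3 : (iota k (d : ZMod m0) : ZMod m) = ((k * d : ℕ) : ZMod m) := iota_natCast h d
    rw [h2, iota_add h, h3]
    exact h1

section

variable {m N p f : ℕ} {Q : Type*} [AddCommGroup Q] {c : ZMod (N * m) → Q}

lemma N_sq (hmN : m ∣ N) : (N : ZMod (N * m)) * (N : ZMod (N * m)) = 0 := by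
  obtain ⟨k, hk⟩ := hmN
  have : ((N * N : ℕ) : ZMod (N * m)) = 0 := by
    rw [ZMod.natCast_eq_zero_iff]
    exact Nat.mul_dvd_mul_left N ⟨k, hk⟩
  simpa using this

lemma pow_fv (hN : p ^ f = N + 1) (hmN : m ∣ N) (v : ℕ) :
    (p : ZMod (N * m)) ^ (f * v) = 1 + (v : ZMod (N * m)) * N := by
  have hP : (p : ZMod (N * m)) ^ f = 1 + N := by
    have : ((p ^ f : ℕ) : ZMod (N * m)) = ((N + 1 : ℕ) : ZMod (N * m)) := by rw [hN]
    push_cast at this
    rw [this]; ring
  rw [pow_mul, hP]
  induction v with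
  | zero => simp
  | succ v ih =>
    rw [pow_succ, ih]
    have := N_sq (m := m) hmN
    push_cast
    linear_combination (v : ZMod (N * m)) * this

variable [NeZero (N * m)]

lemma step (hN : p ^ f = N + 1) (hmN : m ∣ N) (hp : p.Coprime (N * m))
    (hneg : ∀ a, c (-a) = - c a)
    (h4 : ∀ s, SurfaceTate p (N * m) s → (s.map c).sum = 0) (v : ℕ) :
    c (1 + (v : ZMod (N * m)) * N) = c 1 + v • (c (1 + N) - c 1) := by
  have hN2 := N_sq (m := m) hmN
  have hf : (p : ZMod (N * m)) ^ f = 1 + N := by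
    have := pow_fv (m := m) hN hmN 1
    simpa using this
  induction v with
  | zero => simp
  | succ v ih =>
    have e1 : (p : ZMod (N * m)) ^ f * (-(1 + (v : ZMod (N * m)) * N)) =
        -(1 + ((v + 1 : ℕ) : ZMod (N * m)) * N) := by
      rw [hf]; push_cast; linear_combination (-(v : ZMod (N * m))) * hN2
    have e2 : (p : ZMod (N * m)) ^ f * (-1) = -(1 + (N : ZMod (N * m))) := by rw [hf]; ring
    have h := basic (p := p) hp hneg h4 (b := -(1 + (v : ZMod (N * m)) * N)) (b' := -1)
      (i := f) (k := f) (by rw [e1, e2]; push_cast; ring)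
    rw [e1, e2, hneg, hneg, hneg, hneg] at h
    have h2 : c (1 + ((v + 1 : ℕ) : ZMod (N * m)) * N) =
        c (1 + (v : ZMod (N * m)) * N) + (c (1 + N) - c 1) := by
      have : c (1 + ((v + 1 : ℕ) : ZMod (N * m)) * N) - c (1 + (v : ZMod (N * m)) * N) =
          c (1 + N) - c 1 := by
        calc _ = -c (1 + (v : ZMod (N * m)) * N) - -c (1 + ((v + 1 : ℕ) : ZMod (N * m)) * N) := by
              abel
          _ = _ := by rw [h]; abel
      rw [← this]; abel
    rw [h2, ih, succ_nsmul]
    abel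

/-- existence of the homomorphism `D` -/
lemma exists_D (hN : p ^ f = N + 1) (hmN : m ∣ N) (hp : p.Coprime (N * m))
    (hneg : ∀ a, c (-a) = - c a)
    (h4 : ∀ s, SurfaceTate p (N * m) s → (s.map c).sum = 0) :
    ∃ D : ZMod m →+ Q, ∀ (b : ZMod (N * m)) (i : ℕ) (x : ZMod m),
      b - (p : ZMod (N * m)) ^ i * b = iota N x → c b - c ((p : ZMod (N * m)) ^ i * b) = D x := by
  have hm0 : NeZero m := ⟨fun h => NeZero.ne (N * m) (by rw [h, mul_zero])⟩
  set δ := c (1 + (N : ZMod (N * m))) - c 1 with hδ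
  have hstep := step (c := c) hN hmN hp hneg h4
  have hmδ : (m : ℤ) • δ = 0 := by
    have h := hstep m
    have h1 : (1 : ZMod (N * m)) + (m : ZMod (N * m)) * N = 1 := by
      have : ((N * m : ℕ) : ZMod (N * m)) = 0 := by simp
      push_cast at this
      linear_combination this
    rw [h1, left_eq_add] at h
    rw [natCast_zsmul]
    exact h
  refine ⟨ZMod.lift m ⟨zmultiplesHom Q δ, by simpa using hmδ⟩, ?_⟩
  intro b i x hb
  have hx : ZMod.lift m ⟨zmultiplesHom Q δ, by simpa using hmδ⟩ x = x.val • δ := by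
    have h1 : x = ((x.val : ℤ) : ZMod m) := by
      rw [Int.cast_natCast, ZMod.natCast_zmod_val]
    conv_lhs => rw [h1]
    rw [ZMod.lift_coe]
    change ((x.val : ℕ) : ℤ) • δ = _
    rw [natCast_zsmul]
  rw [hx]
  have e : (p : ZMod (N * m)) ^ (f * x.val) * (-1) = -(1 + (x.val : ZMod (N * m)) * N) := by
    rw [pow_fv hN hmN]; ring
  have h := basic (p := p) hp hneg h4 (b := b) (b' := -1) (i := i) (k := f * x.val) (by
    rw [e, hb]
    unfold iota
    push_cast
    ring)
  rw [h, e, hneg, hneg, hstep]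
  abel

end

end Pool.Agent.H916T
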