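import Pool.Agent.H916T.Delta

/-!
The invariant function `g`.
-/

namespace Pool.Agent.H916T

open Finset Pool.Agent.H916R2

variable {m N p f : ℕ} {Q : Type*} [AddCommGroup Q] {c : ZMod (N * m) → Q}

lemma sum_coset {q d : ℕ} (hq2 : ¬ 2 ∣ q) (hqd : q * d = m) (a : ZMod m) :
    ∑ i ∈ range q, (a + (i : ZMod m) * (d : ZMod m)) = (q : ZMod m) * a := by
  rw [sum_add_distrib, sum_const, card_range, nsmul_eq_mul, ← sum_mul, ← Nat.cast_sum]
  obtain ⟨r, hr⟩ : ∃ r, q = 2 * r + 1 := ⟨q / 2, by omega⟩
  have h1 : ∑ i ∈ range q, i = q * r := by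
    have := Finset.sum_range_id_mul_two q
    rw [hr] at this ⊢
    have h2 : (2 * r + 1) * (2 * r + 1 - 1) = ((2 * r + 1) * r) * 2 := by
      rw [Nat.add_sub_cancel]; ring
    omega
  have h2 : ((∑ i ∈ range q, i : ℕ) : ZMod m) * (d : ZMod m) = 0 := by
    rw [h1]
    have : ((q * d : ℕ) : ZMod m) = 0 := by rw [hqd]; simp
    push_cast at this ⊢
    linear_combination (r : ZMod m) * this
  rw [h2, add_zero]

lemma exists_g [NeZero (N * m)] (hN : p ^ f = N + 1) (hmN : m ∣ N) (hp : p.Coprime (N * m))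
    (hneg : ∀ a, c (-a) = - c a) (hhalf : ∀ a, a + a = 0 → c a = 0)
    (h4 : ∀ s, SurfaceTate p (N * m) s → (s.map c).sum = 0)
    (hodd : ∀ q d : ℕ, q.Prime → q ≠ 2 → q * d = m → ∀ a : ZMod m,
      ∑ i ∈ range q, c (iota N (a + (i : ZMod m) * (d : ZMod m))) = c (iota N ((q : ZMod m) * a))) :
    ∃ g : ZMod m → Q, OD g ∧ (∀ a, g ((p : ZMod m) * a) = g a) ∧
      ∀ s : Multiset (ZMod m), s.sum = 0 →
        (s.map fun a => c (iota N a)).sum = (s.map g).sum := by
  have hm0 : NeZero m := ⟨fun h => NeZero.ne (N * m) (by rw [h, mul_zero])⟩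
  obtain ⟨D, hD⟩ := exists_D (c := c) hN hmN hp hneg h4
  refine ⟨fun a => c (iota N a) - D a, ⟨?_, ?_, ?_, ?_⟩, ?_, ?_⟩
  · intro a
    rw [iota_neg rfl, hneg, map_neg]; abel
  · rw [iota_zero, hhalf 0 (by simp), map_zero, sub_zero]
  · intro q d hq hq2 hqd a
    rw [sum_sub_distrib, hodd q d hq hq2 hqd, ← map_sum, sum_coset _ hqd]
    intro h
    exact hq2 ((Nat.prime_dvd_prime_iff_eq Nat.prime_two hq).mp h).symm
  · intro d hd a
    have hd' : 2 * (N * d) = N * m := by rw [← hd]; ring
    have h2 : (iota N (2 * a) : ZMod (N * m)) = 2 * iota N a := by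
      have := iota_natMul (k := N) (m := N * m) rfl 2 a
      simpa using this
    have h3 : (iota N (d : ZMod m) : ZMod (N * m)) = ((N * d : ℕ) : ZMod (N * m)) :=
      iota_natCast rfl d
    have hdd : ((N * d : ℕ) : ZMod (N * m)) + ((N * d : ℕ) : ZMod (N * m)) = 0 := by
      have : ((2 * (N * d) : ℕ) : ZMod (N * m)) = 0 := by rw [hd']; simp
      rw [← this]; push_cast; ring
    have key : c (iota N a) + c (iota N (a + (d : ZMod m))) = c (iota N (2 * a)) := by
      rw [iota_add rfl, h3, h2]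
      by_cases ha : 2 * (iota N a : ZMod (N * m)) = 0
      · rw [ha, hhalf _ (by rw [← two_mul]; exact ha), hhalf _ (by
          linear_combination ha + hdd), hhalf 0 (by simp), add_zero]
      · have h := h4 _ (surface_standardTwo hp hd' ha)
        simp only [Multiset.insert_eq_cons, Multiset.map_cons, Multiset.map_singleton,
          Multiset.sum_cons, Multiset.sum_singleton] at h
        rw [hhalf _ hdd, hneg, add_zero] at h
        rw [← sub_eq_zero, ← h]
        abel
    have e1 : D (a + (d : ZMod m)) = D a + D (d : ZMod m) := map_add D _ _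
    have e2 : D (2 * a) = D a + D a := by rw [two_mul, map_add]
    have e3 : c (iota N (d : ZMod m)) = 0 := by
      rw [h3]; exact hhalf _ hdd
    rw [e1, e2, e3, ← key]
    abel
  · intro a
    have e1 : (iota N ((p : ZMod m) * a) : ZMod (N * m)) = (p : ZMod (N * m)) * iota N a :=
      iota_natMul rfl p a
    have h := hD (iota N a) 1 (a - (p : ZMod m) * a) (by
      rw [sub_eq_add_neg a, iota_add rfl, iota_neg rfl, e1, pow_one]; ring)
    rw [pow_one, ← e1, map_sub] at h
    have : c (iota N a) - D a - (c (iota N ((p : ZMod m) * a)) - D ((p : ZMod m) * a)) = 0 := by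
      calc _ = (c (iota N a) - c (iota N ((p : ZMod m) * a))) - (D a - D ((p : ZMod m) * a)) := by
            abel
        _ = 0 := by rw [h, sub_self]
    exact (sub_eq_zero.mp this).symm
  · intro s hs
    have h1 : (s.map fun a => c (iota N a) - D a).sum =
        (s.map fun a => c (iota N a)).sum - (s.map fun a => D a).sum := Multiset.sum_map_sub
    have h2 : (s.map fun a => D a).sum = D s.sum := (map_multiset_sum D s).symm
    rw [h1, h2, hs, map_zero, sub_zero]

end Pool.Agent.H916T
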