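import Pool.Agent.H916T.Core
import Pool.Agent.H916T.GFun

/-!
The case where `-1` is not a power of `p`.
-/

namespace Pool.Agent.H916T

open Finset Pool.Agent.H916R2

variable {m : ℕ}

lemma generators_sum {m' e : ℕ} (h : GP m m' e) (s : Multiset (ZMod m)) (h0 : (0 : ZMod m) ∉ s) :
    ∃ (S : Multiset (ZMod m')ˣ) (n : ℕ), (¬ 2 ∣ m → n = 0) ∧
    ∀ (Q : Type) [AddCommGroup Q] (c : ZMod m → Q), OD c →
      (s.map c).sum = (S.map fun u : (ZMod m')ˣ => c (iota e (u : ZMod m'))).sum +
        n • c ((m / 2 : ℕ) : ZMod m) := by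
  induction s using Multiset.induction_on with
  | empty => exact ⟨0, 0, fun _ => rfl, fun Q _ c _ => by simp⟩
  | cons a s ih =>
    obtain ⟨S1, n1, hn1, hS1⟩ := ih (fun h => h0 (Multiset.mem_cons_of_mem h))
    obtain ⟨S2, n2, hn2, hS2⟩ := h a (fun h' => h0 (by rw [h']; exact Multiset.mem_cons_self _ _))
    refine ⟨S2 + S1, n2 + n1, fun h' => by rw [hn1 h', hn2 h'], fun Q _ c hc => ?_⟩
    rw [Multiset.map_cons, Multiset.sum_cons, hS1 Q c hc, hS2 Q c hc, Multiset.map_add,
      Multiset.sum_add, add_nsmul]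
    abel

lemma two_mul_half {d : ℕ} (hd : 2 * d = m) : (2 : ZMod m) * (d : ZMod m) = 0 := by
  have : ((2 * d : ℕ) : ZMod m) = 0 := by rw [hd]; simp
  simpa using this

lemma half_ne_zero [NeZero m] {d : ℕ} (hd : 2 * d = m) : (d : ZMod m) ≠ 0 := by
  have hm : 0 < m := NeZero.pos m
  intro h
  rw [ZMod.natCast_eq_zero_iff] at h
  have := Nat.le_of_dvd (by omega) h
  omega

lemma od_W [NeZero m] {p : ℕ} (hp : p.Coprime m) (t : (ZMod m)ˣ) :
    OD (fun a : ZMod m => W p ((t : ZMod m) * a)) where
  neg := fun a => by rw [mul_neg, W_neg]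
  zero := by rw [mul_zero, W_zero]
  odd := fun q d _ _ hqd a => W_dist_unit hp hqd t a
  two := fun d hd a => by
    have h := W_dist_unit hp hd t a
    rw [sum_range_succ, sum_range_one] at h
    simp only [Nat.cast_zero, zero_mul, add_zero, Nat.cast_one, one_mul, Nat.cast_ofNat] at h
    have h3 : W p ((t : ZMod m) * (d : ZMod m)) = 0 := by
      apply W_half
      linear_combination (t : ZMod m) * two_mul_half hd
    rw [h3, add_zero]
    exact h

lemma od_SS [NeZero m] (χ : DirichletCharacter ℂ m) : OD (SS χ) where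
  neg := SS_neg χ
  zero := by
    have h := SS_neg χ 0
    rw [neg_zero] at h
    have h2 : 2 * SS χ 0 = 0 := by linear_combination h
    simpa using h2
  odd := fun q d _ _ hqd a => SS_dist χ hqd a
  two := fun d hd a => by
    have h := SS_dist χ hd a
    rw [sum_range_succ, sum_range_one] at h
    simp only [Nat.cast_zero, zero_mul, add_zero, Nat.cast_one, one_mul, Nat.cast_ofNat] at h
    have h3 : SS χ (d : ZMod m) = 0 := by
      have h4 := SS_neg χ (d : ZMod m)
      have h5 : -(d : ZMod m) = (d : ZMod m) := by linear_combination -(two_mul_half hd)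
      rw [h5] at h4
      have h2 : 2 * SS χ (d : ZMod m) = 0 := by linear_combination h4
      simpa using h2
    rw [h3, add_zero]
    exact h

lemma SS_half [NeZero m] (χ : DirichletCharacter ℂ m) {d : ℕ} (hd : 2 * d = m) :
    SS χ (d : ZMod m) = 0 := by
  have h4 := SS_neg χ (d : ZMod m)
  have h5 : -(d : ZMod m) = (d : ZMod m) := by linear_combination -(two_mul_half hd)
  rw [h5] at h4
  have h2 : 2 * SS χ (d : ZMod m) = 0 := by linear_combination h4
  simpa using h2

lemma od_size [NeZero m] : OD (fun a : ZMod m => if a = 0 then (0 : ZMod 2) else 1) where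
  neg := fun a => by
    simp only [neg_eq_zero]
    split_ifs
    · simp
    · decide
  zero := by simp
  odd := fun q d hq hq2 hqd a => by
    have hm : 0 < m := NeZero.pos m
    have hd : 0 < d := Nat.pos_of_ne_zero (by rintro rfl; simp at hqd; omega)
    have hqd0 : ((q : ℕ) : ZMod m) * (d : ZMod m) = 0 := by
      have : ((q * d : ℕ) : ZMod m) = 0 := by rw [hqd]; simp
      simpa using this
    obtain ⟨r, hr⟩ : ∃ r, q = 2 * r + 1 := by
      have := hq.eq_two_or_odd
      exact ⟨q / 2, by omega⟩
    have h2 : (2 : ZMod 2) = 0 := by decide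
    by_cases ha : (q : ZMod m) * a = 0
    · rw [if_pos ha]
      have hmv : m ∣ q * a.val := by
        rw [← ZMod.natCast_eq_zero_iff]; push_cast; rw [ZMod.natCast_zmod_val]; exact ha
      have hdv : d ∣ a.val := by
        have hmv' : q * d ∣ q * a.val := by rw [hqd]; exact hmv
        exact Nat.dvd_of_mul_dvd_mul_left hq.pos hmv'
      obtain ⟨j, hj⟩ := hdv
      have haj : a = 0 + (j : ZMod m) * (d : ZMod m) := by
        rw [zero_add]
        calc a = ((a.val : ℕ) : ZMod m) := (ZMod.natCast_zmod_val a).symm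
          _ = _ := by rw [hj]; push_cast; ring
      conv_lhs => rw [haj]
      rw [coset_sum_shift_mul (fun x => if x = 0 then (0 : ZMod 2) else 1) hqd 0 j, hr,
        sum_range_succ']
      have h3 : ∀ i ∈ range (2 * r), (if (0 : ZMod m) + ((i + 1 : ℕ) : ZMod m) * (d : ZMod m) = 0
          then (0 : ZMod 2) else 1) = 1 := by
        intro i hi
        rw [if_neg]
        intro h
        rw [zero_add] at h
        have h4 : (((i + 1) * d : ℕ) : ZMod m) = 0 := by push_cast; push_cast at h; exact h
        rw [ZMod.natCast_eq_zero_iff, ← hqd] at h4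
        have h5 := Nat.dvd_of_mul_dvd_mul_right hd h4
        have h6 := Nat.le_of_dvd (Nat.succ_pos i) h5
        have := mem_range.mp hi
        omega
      rw [sum_congr rfl h3, sum_const, card_range, nsmul_eq_mul]
      push_cast
      simp [h2]
    · rw [if_neg ha]
      have h3 : ∀ i ∈ range q, (if a + (i : ZMod m) * (d : ZMod m) = 0
          then (0 : ZMod 2) else 1) = 1 := by
        intro i _
        rw [if_neg]
        intro h
        apply ha
        linear_combination (q : ZMod m) * h - (i : ZMod m) * hqd0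
      rw [sum_congr rfl h3, sum_const, card_range, nsmul_eq_mul, hr]
      push_cast
      rw [h2]; ring
  two := fun d hd a => by
    have hd0 := half_ne_zero hd
    have h2d := two_mul_half hd
    have h2 : (1 : ZMod 2) + 1 = 0 := by decide
    by_cases ha : 2 * a = 0
    · by_cases ha0 : a = 0
      · subst ha0; simp [hd0]
      · have hda : a = (d : ZMod m) :=
          half_unique (by rw [← two_mul]; exact ha) (by rw [← two_mul]; exact h2d) ha0 hd0
        have h3 : a + (d : ZMod m) = 0 := by rw [hda, ← two_mul]; exact h2d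
        rw [if_neg ha0, if_pos h3, if_pos ha, if_neg hd0]
        ring
    · have ha0 : a ≠ 0 := by rintro rfl; exact ha (by simp)
      have h3 : a + (d : ZMod m) ≠ 0 := by
        intro h; apply ha; linear_combination (2 : ZMod m) * h - h2d
      rw [if_neg ha0, if_neg h3, if_neg ha, if_neg hd0]

lemma SS_one_ne_zero [NeZero m] (h : GP m m 1) (χ : DirichletCharacter ℂ m) (hχ : χ.Odd) :
    SS χ 1 ≠ 0 := by
  intro h1
  obtain ⟨a, ha⟩ := exists_SS_ne_zero χ hχ
  have ha0 : a ≠ 0 := by
    rintro rfl
    exact ha (od_SS χ).zero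
  obtain ⟨S, n, hn, hS⟩ := h a ha0
  apply ha
  rw [hS ℂ (SS χ) (od_SS χ)]
  have h2 : (S.map fun u : (ZMod m)ˣ => SS χ (iota 1 (u : ZMod m))).sum = 0 := by
    apply Multiset.sum_eq_zero
    intro x hx
    obtain ⟨u, _, rfl⟩ := Multiset.mem_map.mp hx
    rw [iota_one]
    have := SS_unit χ u 1
    rw [mul_one] at this
    rw [this, h1, mul_zero]
  rw [h2, zero_add]
  by_cases h2m : 2 ∣ m
  · obtain ⟨d, hd⟩ := h2m
    have : m / 2 = d := by rw [hd]; exact Nat.mul_div_cancel_left d (by norm_num)
    rw [this, SS_half χ hd.symm, smul_zero]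
  · rw [hn h2m, zero_smul]

/-- The main statement when `-1` is not a power of `p`. -/
theorem ordinary_sum {m' e p : ℕ} [NeZero m] [NeZero m'] (he : e * m' = m) (hm' : 1 < m')
    (hGP : GP m m' e) (hGP' : GP m' m' 1) (hp : p.Coprime m)
    (hno : ∀ j : ℕ, (p : ZMod m') ^ j ≠ -1) {s : Multiset (ZMod m)} (hs : IsTate p m s)
    {Q : Type} [AddCommGroup Q] {g : ZMod m → Q} (hg : OD g)
    (hgp : ∀ a, g ((p : ZMod m) * a) = g a) : (s.map g).sum = 0 := by
  obtain ⟨S, n, hn, hS⟩ := generators_sum hGP s hs.1
  have hdvd : m' ∣ m := Dvd.intro_left e he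
  have hp' : p.Coprime m' := Nat.Coprime.coprime_dvd_right hdvd hp
  have he0 : 0 < e := Nat.pos_of_ne_zero (by rintro rfl; simp at he; exact NeZero.ne m he.symm)
  set F := orderOf (p : ZMod m) with hFdef
  have hF0 : 0 < F := order_pos hp
  have hF : (p : ZMod m') ^ F = 1 := by
    have h1 : (p : ZMod m) ^ F = 1 := H916T.pow_order p
    have h2 := congrArg (ZMod.castHom hdvd (ZMod m')) h1
    rwa [map_pow, map_natCast, map_one] at h2
  -- the Stickelberger relations at level m'
  have hsaw : ∀ t : (ZMod m')ˣ, (S.map fun v : (ZMod m')ˣ =>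
      ∑ j ∈ range F, saw ((p : ZMod m') ^ j * ((t : ZMod m') * (v : ZMod m')))).sum = 0 := by
    intro t'
    obtain ⟨t, ht⟩ := ZMod.unitsMap_surjective hdvd t'
    have h1 := hS ℤ _ (od_W hp t)
    rw [hs.W_sum hp t] at h1
    have h2 : n • W p ((t : ZMod m) * ((m / 2 : ℕ) : ZMod m)) = 0 := by
      by_cases h2m : 2 ∣ m
      · obtain ⟨d, hd⟩ := h2m
        have hmd : m / 2 = d := by rw [hd]; exact Nat.mul_div_cancel_left d (by norm_num)
        rw [hmd, W_half, smul_zero]
        linear_combination (t : ZMod m) * two_mul_half hd.symm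
      · rw [hn h2m, zero_smul]
    rw [h2, add_zero] at h1
    have h3 : ∀ v : (ZMod m')ˣ, W p ((t : ZMod m) * iota e (v : ZMod m')) =
        (e : ℤ) * ∑ j ∈ range F, saw ((p : ZMod m') ^ j * ((t' : ZMod m') * (v : ZMod m'))) := by
      intro v
      unfold W
      rw [mul_sum]
      refine sum_congr rfl fun j _ => ?_
      rw [unit_iota he, ht]
      have h4 : (p : ZMod m) ^ j * iota e ((t' : ZMod m') * (v : ZMod m')) =
          iota e ((p : ZMod m') ^ j * ((t' : ZMod m') * (v : ZMod m'))) := by
        have := iota_natMul he (p ^ j) ((t' : ZMod m') * (v : ZMod m'))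
        push_cast at this
        rw [this]
      rw [h4, saw_iota he]
    simp only [h3] at h1
    rw [Multiset.sum_map_mul_left] at h1
    have he' : (e : ℤ) ≠ 0 := by exact_mod_cast he0.ne'
    exact (mul_eq_zero.mp h1.symm).resolve_left he'
  have hbal := balanced_of_saw hp' (fun χ hχ => SS_one_ne_zero hGP' χ hχ) S hsaw
  have hres := balanced_sum hF0 hF hno _ S rfl hbal
  -- the two consequences
  have hg1 := hres Q (fun a => g (iota e a)) (fun a => by rw [iota_neg he, hg.neg])
    (fun a => by rw [iota_natMul he, hgp])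
  have hcard := hres (ZMod 2) (fun _ => 1) (fun _ => by decide) (fun _ => rfl)
  have h1 := hS Q g hg
  rw [hg1, zero_add] at h1
  rw [h1]
  by_cases h2m : 2 ∣ m
  · obtain ⟨d, hd⟩ := h2m
    have hmd : m / 2 = d := by rw [hd]; exact Nat.mul_div_cancel_left d (by norm_num)
    rw [hmd]
    have hsz := hS (ZMod 2) _ od_size
    have hL : (s.map fun a : ZMod m => if a = 0 then (0 : ZMod 2) else 1).sum = 0 := by
      have h3 : (s.map fun a : ZMod m => if a = 0 then (0 : ZMod 2) else 1) =
          s.map fun _ => (1 : ZMod 2) := by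
        apply Multiset.map_congr rfl
        intro a ha
        rw [if_neg]
        rintro rfl
        exact hs.1 ha
      rw [h3, Multiset.map_const', Multiset.sum_replicate, nsmul_eq_mul, mul_one]
      obtain ⟨r, hr⟩ := hs.2.1
      rw [hr]
      push_cast
      exact CharTwo.add_self_eq_zero _
    have hR : (S.map fun u : (ZMod m')ˣ => if (iota e (u : ZMod m') : ZMod m) = 0
        then (0 : ZMod 2) else 1).sum = 0 := by
      rw [← hcard]
      congr 1
      apply Multiset.map_congr rfl
      intro u _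
      rw [if_neg]
      intro h0
      have h4 := iota_eq_zero he h0
      have : Fact (1 < m') := ⟨hm'⟩
      exact u.ne_zero h4
    rw [hL, hR, zero_add, hmd, if_neg (half_ne_zero hd.symm), nsmul_eq_mul, mul_one] at hsz
    have hne : Even n := by
      rw [← ZMod.natCast_eq_zero_iff_even]
      exact hsz.symm
    obtain ⟨r, hr⟩ := hne
    rw [hr, add_nsmul, ← nsmul_add, hg.half hd.symm, nsmul_zero]
  · rw [hn h2m, zero_smul]

end Pool.Agent.H916T
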