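import Pool.Agent.H916T.Clos

/-!
Tate characters and the averaged sawtooth.
-/

namespace Pool.Agent.H916T

open Finset Pool.Agent.H916R2

variable {m : ℕ}

/-- the sawtooth averaged over the powers of `p` -/
noncomputable def W (p : ℕ) (a : ZMod m) : ℤ :=
  ∑ j ∈ range (orderOf (p : ZMod m)), saw ((p : ZMod m) ^ j * a)

lemma pow_order (p : ℕ) : (p : ZMod m) ^ orderOf (p : ZMod m) = 1 := pow_orderOf_eq_one _

lemma isUnit_p {p : ℕ} (h : p.Coprime m) : IsUnit (p : ZMod m) :=
  (ZMod.isUnit_iff_coprime p m).mpr h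

lemma order_pos [NeZero m] {p : ℕ} (h : p.Coprime m) : 0 < orderOf (p : ZMod m) := by
  have h1 := orderOf_pos (H916T.isUnit_p h).unit
  rwa [← orderOf_units, IsUnit.unit_spec] at h1

lemma W_zero (p : ℕ) : W p (0 : ZMod m) = 0 := by
  unfold W; simp [saw_zero]

lemma W_neg [NeZero m] (p : ℕ) (a : ZMod m) : W p (-a) = - W p a := by
  unfold W
  rw [← sum_neg_distrib]
  exact sum_congr rfl fun j _ => by rw [mul_neg, saw_neg]

lemma W_half [NeZero m] (p : ℕ) {a : ZMod m} (h : a + a = 0) : W p a = 0 := by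
  have h1 : -a = a := neg_eq_of_add_eq_zero_right h
  have h2 := W_neg p a
  rw [h1] at h2
  omega

lemma W_mul (p : ℕ) (a : ZMod m) : W p ((p : ZMod m) * a) = W p a := by
  unfold W
  have h1 : ∀ j, (p : ZMod m) ^ j * ((p : ZMod m) * a) = (p : ZMod m) ^ (j + 1) * a := fun j => by
    rw [pow_succ]; ring
  rw [sum_congr rfl fun j _ => by rw [h1 j]]
  have h2 := sum_range_succ (fun j => saw ((p : ZMod m) ^ j * a)) (orderOf (p : ZMod m))
  have h3 := sum_range_succ' (fun j => saw ((p : ZMod m) ^ j * a)) (orderOf (p : ZMod m))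
  rw [h2, H916T.pow_order, pow_zero] at h3
  linarith

lemma W_pow_mul (p i : ℕ) (a : ZMod m) : W p ((p : ZMod m) ^ i * a) = W p a := by
  induction i with
  | zero => simp
  | succ i ih => rw [pow_succ', mul_assoc, W_mul, ih]

lemma W_dist_unit [NeZero m] {p : ℕ} (hp : p.Coprime m) {q d : ℕ} (hqd : q * d = m)
    (t : (ZMod m)ˣ) (a : ZMod m) :
    ∑ i ∈ range q, W p ((t : ZMod m) * (a + (i : ZMod m) * (d : ZMod m))) =
      W p ((t : ZMod m) * ((q : ZMod m) * a)) := by
  unfold W
  rw [sum_comm]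
  refine sum_congr rfl fun j _ => ?_
  have h := saw_dist_unit hqd ((H916T.isUnit_p hp).unit ^ j * t) a
  simp only [Units.val_mul, Units.val_pow_eq_pow_val, IsUnit.unit_spec] at h
  rw [← mul_assoc, ← h]
  exact sum_congr rfl fun i _ => by rw [← mul_assoc]

lemma val_sum_eq [NeZero m] {p : ℕ} (hp : p.Coprime m) (s : Multiset (ZMod m))
    (h0 : (0 : ZMod m) ∉ s) (t : (ZMod m)ˣ) :
    (s.map fun a => W p ((t : ZMod m) * a)).sum =
      ((2 * ∑ j ∈ Finset.range (orderOf (p : ZMod m)),
          (s.map fun a => ((p : ZMod m) ^ j * ((t : ZMod m) * a)).val).sum : ℕ) : ℤ) -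
        ((orderOf (p : ZMod m) * (m * Multiset.card s) : ℕ) : ℤ) := by
  have h1 : (s.map fun a => W p ((t : ZMod m) * a)).sum =
      ∑ j ∈ range (orderOf (p : ZMod m)),
        (s.map fun a => saw ((p : ZMod m) ^ j * ((t : ZMod m) * a))).sum := by
    have hgen : ∀ s : Multiset (ZMod m), (s.map fun a => W p ((t : ZMod m) * a)).sum =
      ∑ j ∈ range (orderOf (p : ZMod m)),
        (s.map fun a => saw ((p : ZMod m) ^ j * ((t : ZMod m) * a))).sum := by
      intro s
      induction s using Multiset.induction_on with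
      | empty => simp
      | cons a s ih =>
        rw [Multiset.map_cons, Multiset.sum_cons, ih]
        unfold W
        rw [← sum_add_distrib]
        exact sum_congr rfl fun j _ => by rw [Multiset.map_cons, Multiset.sum_cons]
    exact hgen s
  rw [h1]
  have h2 : ∀ j ∈ range (orderOf (p : ZMod m)),
      (s.map fun a => saw ((p : ZMod m) ^ j * ((t : ZMod m) * a))).sum =
        2 * (((s.map fun a => ((p : ZMod m) ^ j * ((t : ZMod m) * a)).val).sum : ℕ) : ℤ) -
          m * (Multiset.card s : ℤ) := by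
    intro j _
    have h := saw_sum_eq s h0 ((H916T.isUnit_p hp).unit ^ j * t)
    simp only [Units.val_mul, Units.val_pow_eq_pow_val, IsUnit.unit_spec, mul_assoc] at h
    exact h
  rw [sum_congr rfl h2, sum_sub_distrib, ← mul_sum, sum_const, card_range]
  push_cast
  ring

lemma IsTate.W_sum [NeZero m] {p : ℕ} (hp : p.Coprime m) {s : Multiset (ZMod m)}
    (hs : IsTate p m s) (t : (ZMod m)ˣ) : (s.map fun a => W p ((t : ZMod m) * a)).sum = 0 := by
  rw [val_sum_eq hp s hs.1 t, hs.2.2.2 t, sub_self]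

lemma isTate_of_W [NeZero m] {p : ℕ} (hp : p.Coprime m) {s : Multiset (ZMod m)}
    (h0 : (0 : ZMod m) ∉ s) (heven : Even (Multiset.card s)) (hsum : s.sum = 0)
    (h : ∀ t : (ZMod m)ˣ, (s.map fun a => W p ((t : ZMod m) * a)).sum = 0) : IsTate p m s := by
  refine ⟨h0, heven, hsum, fun t => ?_⟩
  have h1 := val_sum_eq hp s h0 t
  rw [h t] at h1
  have h2 := sub_eq_zero.mp h1.symm
  exact_mod_cast h2

lemma IsTate.neg [NeZero m] {p : ℕ} (hp : p.Coprime m) {s : Multiset (ZMod m)}
    (hs : IsTate p m s) : IsTate p m (s.map Neg.neg) := by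
  apply isTate_of_W hp
  · intro h
    obtain ⟨b, hb, hb0⟩ := Multiset.mem_map.mp h
    exact hs.1 (by rwa [neg_eq_zero.mp hb0] at hb)
  · rw [Multiset.card_map]; exact hs.2.1
  · rw [Multiset.sum_map_neg', hs.2.2.1, neg_zero]
  · intro t
    rw [Multiset.map_map]
    have : (s.map ((fun a => W p ((t : ZMod m) * a)) ∘ Neg.neg)).sum =
        (s.map fun a => - W p ((t : ZMod m) * a)).sum := by
      congr 1
      apply Multiset.map_congr rfl
      intro a _
      simp only [Function.comp_apply, mul_neg, W_neg]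
    rw [this, Multiset.sum_map_neg, hs.W_sum hp t, neg_zero]

lemma SurfaceTate.neg [NeZero m] {p : ℕ} (hp : p.Coprime m) {s : Multiset (ZMod m)}
    (hs : SurfaceTate p m s) : SurfaceTate p m (s.map Neg.neg) :=
  ⟨hs.1.neg hp, by rw [Multiset.card_map]; exact hs.2⟩

lemma surface_of {p : ℕ} [NeZero m] (hp : p.Coprime m) {a b c d : ZMod m} (ha : a ≠ 0) (hb : b ≠ 0)
    (hc : c ≠ 0) (hd : d ≠ 0) (hsum : a + b + c + d = 0)
    (hW : ∀ t : (ZMod m)ˣ, W p ((t : ZMod m) * a) + W p ((t : ZMod m) * b) +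
      W p ((t : ZMod m) * c) + W p ((t : ZMod m) * d) = 0) : SurfaceTate p m {a, b, c, d} := by
  refine ⟨isTate_of_W hp ?_ ?_ ?_ ?_, by simp⟩
  · simp only [Multiset.insert_eq_cons, Multiset.mem_cons, Multiset.mem_singleton, not_or]
    exact ⟨ha.symm, hb.symm, hc.symm, hd.symm⟩
  · simp only [Multiset.insert_eq_cons, Multiset.card_cons, Multiset.card_singleton]
    decide
  · simp only [Multiset.insert_eq_cons, Multiset.sum_cons, Multiset.sum_singleton]
    rw [← hsum]; ring
  · intro t
    simp only [Multiset.insert_eq_cons, Multiset.map_cons, Multiset.map_singleton,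
      Multiset.sum_cons, Multiset.sum_singleton]
    rw [← hW t]; ring

/-- the standard character attached to `2` is the one of a surface -/
lemma surface_standardTwo {p : ℕ} [NeZero m] (hp : p.Coprime m) {d : ℕ} (hd : 2 * d = m)
    {a : ZMod m} (ha : 2 * a ≠ 0) : SurfaceTate p m {a, a + (d : ZMod m), -(2 * a), (d : ZMod m)} := by
  have h2 : (2 : ZMod m) * (d : ZMod m) = 0 := by
    have : ((2 * d : ℕ) : ZMod m) = 0 := by rw [hd]; simp
    simpa using this
  have hm : 0 < m := NeZero.pos m
  have hd0 : (d : ZMod m) ≠ 0 := by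
    intro h
    rw [ZMod.natCast_eq_zero_iff] at h
    have := Nat.le_of_dvd (by omega) h
    omega
  apply surface_of hp
  · rintro rfl; exact ha (by simp)
  · intro h; apply ha; linear_combination (2 : ZMod m) * h - h2
  · exact neg_ne_zero.mpr ha
  · exact hd0
  · linear_combination h2
  · intro t
    have h := W_dist_unit hp hd t a
    rw [sum_range_succ, sum_range_one] at h
    simp only [Nat.cast_zero, zero_mul, add_zero, Nat.cast_one, one_mul, Nat.cast_ofNat] at h
    have h3 : W p ((t : ZMod m) * (d : ZMod m)) = 0 := by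
      apply W_half
      linear_combination (t : ZMod m) * h2
    rw [h3, h, mul_neg, W_neg]
    ring

/-- The basic relation: `c b - c (p ^ i * b)` depends only on `b - p ^ i * b`. -/
lemma basic {p : ℕ} [NeZero m] (hp : p.Coprime m) {Q : Type*} [AddCommGroup Q] {c : ZMod m → Q}
    (hneg : ∀ a, c (-a) = - c a)
    (h4 : ∀ s, SurfaceTate p m s → (s.map c).sum = 0) {b b' : ZMod m} {i k : ℕ}
    (h : b - (p : ZMod m) ^ i * b = b' - (p : ZMod m) ^ k * b') :
    c b - c ((p : ZMod m) ^ i * b) = c b' - c ((p : ZMod m) ^ k * b') := by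
  have hu := H916T.isUnit_p hp
  by_cases hb : b = 0
  · subst hb
    have : b' = (p : ZMod m) ^ k * b' := by
      rw [mul_zero, sub_zero] at h
      exact (sub_eq_zero.mp h.symm)
    rw [mul_zero, ← this, sub_self, sub_self]
  by_cases hb' : b' = 0
  · subst hb'
    have : b = (p : ZMod m) ^ i * b := by
      rw [mul_zero, sub_zero] at h
      exact (sub_eq_zero.mp h)
    rw [mul_zero, ← this, sub_self, sub_self]
  have hne : ∀ (j : ℕ) (x : ZMod m), x ≠ 0 → (p : ZMod m) ^ j * x ≠ 0 := by
    intro j x hx h'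
    exact hx (((hu.pow j).mul_right_eq_zero).mp h')
  have hs : SurfaceTate p m {b, -((p : ZMod m) ^ i * b), -b', (p : ZMod m) ^ k * b'} := by
    apply surface_of hp hb (neg_ne_zero.mpr (hne i b hb)) (neg_ne_zero.mpr hb') (hne k b' hb')
    · linear_combination h
    · intro t
      rw [mul_neg, mul_neg, W_neg, W_neg]
      have e1 : (t : ZMod m) * ((p : ZMod m) ^ i * b) = (p : ZMod m) ^ i * ((t : ZMod m) * b) := by
        ring
      have e2 : (t : ZMod m) * ((p : ZMod m) ^ k * b') = (p : ZMod m) ^ k * ((t : ZMod m) * b') := by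
        ring
      rw [e1, e2, W_pow_mul, W_pow_mul]
      ring
  have h1 := h4 _ hs
  simp only [Multiset.insert_eq_cons, Multiset.map_cons, Multiset.map_singleton,
    Multiset.sum_cons, Multiset.sum_singleton, hneg] at h1
  rw [← sub_eq_zero, ← h1]
  abel

end Pool.Agent.H916T
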