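import Pool.Agent.H916T.Delta

/-!
Generation by units for prime powers and twice prime powers.
-/

namespace Pool.Agent.H916T

open Finset Pool.Agent.H916R2

/-- All values of odd distributions of level `m` are generated by the values at the units of level
`m'` and the value at the element of order two. -/
def GP (m m' e : ℕ) : Prop :=
  ∀ a : ZMod m, a ≠ 0 → ∃ (S : Multiset (ZMod m')ˣ) (n : ℕ), (¬ 2 ∣ m → n = 0) ∧
    ∀ (Q : Type) [AddCommGroup Q] (c : ZMod m → Q), OD c →
      c a = (S.map fun u : (ZMod m')ˣ => c (iota e (u : ZMod m'))).sum + n • c ((m / 2 : ℕ) : ZMod m)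

lemma OD.half {m : ℕ} {Q : Type*} [AddCommGroup Q] {c : ZMod m → Q} (hc : OD c)
    {d : ℕ} (hd : 2 * d = m) : c (d : ZMod m) + c (d : ZMod m) = 0 := by
  have h2 : (2 : ZMod m) * (d : ZMod m) = 0 := by
    have : ((2 * d : ℕ) : ZMod m) = 0 := by rw [hd]; simp
    simpa using this
  have h3 : -(d : ZMod m) = (d : ZMod m) := by linear_combination -h2
  have h4 := hc.neg (d : ZMod m)
  rw [h3] at h4
  nth_rewrite 1 [h4]
  simp

lemma iota_one {m : ℕ} [NeZero m] (a : ZMod m) : (iota 1 a : ZMod m) = a := by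
  unfold iota
  rw [one_mul, ZMod.natCast_zmod_val]

/-- prime powers -/
lemma gp_prime_pow {ℓ k : ℕ} (hℓ : ℓ.Prime) [NeZero (ℓ ^ k)] : GP (ℓ ^ k) (ℓ ^ k) 1 := by
  have key : ∀ (v x : ℕ), 0 < x → x < ℓ ^ k → padicValNat ℓ x = v →
      ∃ (S : Multiset (ZMod (ℓ ^ k))ˣ) (n : ℕ), (¬ 2 ∣ ℓ ^ k → n = 0) ∧
        ∀ (Q : Type) [AddCommGroup Q] (c : ZMod (ℓ ^ k) → Q), OD c →
          c (x : ZMod (ℓ ^ k)) = (S.map fun u : (ZMod (ℓ ^ k))ˣ => c (iota 1 (u : ZMod (ℓ ^ k)))).sum +
            n • c ((ℓ ^ k / 2 : ℕ) : ZMod (ℓ ^ k)) := by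
    intro v
    induction v with
    | zero =>
      intro x hx0 hx hv
      have hnd : ¬ ℓ ∣ x := by
        intro h
        have : 1 ≤ padicValNat ℓ x := by
          have := Fact.mk hℓ
          exact one_le_padicValNat_of_dvd hx0.ne' h
        omega
      have hcop : x.Coprime (ℓ ^ k) := Nat.Coprime.pow_right k ((hℓ.coprime_iff_not_dvd.mpr hnd).symm)
      refine ⟨{ZMod.unitOfCoprime x hcop}, 0, fun _ => rfl, ?_⟩
      intro Q _ c hc
      simp [iota_one]
    | succ v ih =>
      intro x hx0 hx hv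
      have := Fact.mk hℓ
      have hdvd : ℓ ∣ x := by
        by_contra h
        rw [padicValNat.eq_zero_of_not_dvd h] at hv
        omega
      obtain ⟨y, hy⟩ := hdvd
      have hy0 : 0 < y := Nat.pos_of_ne_zero (by rintro rfl; omega)
      have hyv : padicValNat ℓ y = v := by
        rw [hy, padicValNat.mul hℓ.ne_zero hy0.ne', padicValNat.self hℓ.one_lt] at hv
        omega
      have hk : v + 1 < k := by
        have h1 : ℓ ^ (v + 1) ∣ x := by rw [← hv]; exact pow_padicValNat_dvd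
        have h2 : ℓ ^ (v + 1) < ℓ ^ k := lt_of_le_of_lt (Nat.le_of_dvd hx0 h1) hx
        exact (Nat.pow_lt_pow_iff_right hℓ.one_lt).mp h2
      obtain ⟨k', rfl⟩ : ∃ k', k = k' + 1 := ⟨k - 1, by omega⟩
      have hylt : y < ℓ ^ k' := by
        rw [hy, pow_succ, mul_comm] at hx
        exact Nat.lt_of_mul_lt_mul_right hx
      have hd : ℓ * ℓ ^ k' = ℓ ^ (k' + 1) := by rw [pow_succ]; ring
      -- the elements of the coset
      have hlt : ∀ i < ℓ, y + i * ℓ ^ k' < ℓ ^ (k' + 1) := by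
        intro i hi
        calc y + i * ℓ ^ k' < ℓ ^ k' + i * ℓ ^ k' := by omega
          _ = (i + 1) * ℓ ^ k' := by ring
          _ ≤ ℓ * ℓ ^ k' := Nat.mul_le_mul_right _ hi
          _ = _ := hd
      have hval : ∀ i < ℓ, padicValNat ℓ (y + i * ℓ ^ k') = v := by
        intro i _
        have h1 : ℓ ^ v ∣ y := by rw [← hyv]; exact pow_padicValNat_dvd
        have h2 : ¬ ℓ ^ (v + 1) ∣ y := by
          rw [← hyv]; exact pow_succ_padicValNat_not_dvd hy0.ne'
        have h3 : ℓ ^ (v + 1) ∣ ℓ ^ k' := pow_dvd_pow _ (by omega)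
        have h4 : ℓ ^ (v + 1) ∣ i * ℓ ^ k' := h3.mul_left i
        have hne : y + i * ℓ ^ k' ≠ 0 := by omega
        apply le_antisymm
        · by_contra hcon
          push Not at hcon
          have h5 : ℓ ^ (v + 1) ∣ y + i * ℓ ^ k' :=
            dvd_trans (pow_dvd_pow _ hcon) pow_padicValNat_dvd
          exact h2 ((Nat.dvd_add_left h4).mp h5)
        · have h5 : ℓ ^ v ∣ y + i * ℓ ^ k' :=
            Nat.dvd_add h1 (dvd_trans (pow_dvd_pow _ (Nat.le_succ v)) h4)
          exact (padicValNat_dvd_iff_le hne).mp h5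
      choose! S n hn hS using fun i (hi : i < ℓ) =>
        ih (y + i * ℓ ^ k') (by omega) (hlt i hi) (hval i hi)
      have hxc : (x : ZMod (ℓ ^ (k' + 1))) = (ℓ : ZMod (ℓ ^ (k' + 1))) * (y : ZMod (ℓ ^ (k' + 1))) := by
        rw [hy]; push_cast; rfl
      have hcast : ∀ i : ℕ, (y : ZMod (ℓ ^ (k' + 1))) + (i : ZMod (ℓ ^ (k' + 1))) *
          ((ℓ ^ k' : ℕ) : ZMod (ℓ ^ (k' + 1))) = ((y + i * ℓ ^ k' : ℕ) : ZMod (ℓ ^ (k' + 1))) := by
        intro i; push_cast; rfl
      have hmapsum : ∀ (Q : Type) [AddCommGroup Q] (c : ZMod (ℓ ^ (k' + 1)) → Q) (T : Finset ℕ),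
          ((∑ i ∈ T, S i).map fun u : (ZMod (ℓ ^ (k' + 1)))ˣ => c (iota 1 (u : ZMod (ℓ ^ (k' + 1))))).sum =
            ∑ i ∈ T, ((S i).map fun u : (ZMod (ℓ ^ (k' + 1)))ˣ => c (iota 1 (u : ZMod (ℓ ^ (k' + 1))))).sum := by
        intro Q _ c T
        induction T using Finset.induction_on with
        | empty => simp
        | insert a T ha ih' =>
          rw [Finset.sum_insert ha, Finset.sum_insert ha, Multiset.map_add, Multiset.sum_add, ih']
      by_cases h2 : ℓ = 2
      · refine ⟨∑ i ∈ range ℓ, S i, ∑ i ∈ range ℓ, n i + 1, ?_, ?_⟩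
        · intro h; exfalso; apply h; rw [h2]; exact dvd_pow_self 2 (by omega)
        · intro Q _ c hc
          have hhf : ℓ ^ (k' + 1) / 2 = ℓ ^ k' := by
            rw [h2, pow_succ, Nat.mul_div_cancel _ (by norm_num)]
          have hd2 : 2 * ℓ ^ k' = ℓ ^ (k' + 1) := by rw [← hd, h2]
          have h3 := hc.two (ℓ ^ k') hd2 (y : ZMod (ℓ ^ (k' + 1)))
          have hh := hc.half hd2
          have e0 := hS 0 hℓ.pos Q c hc
          have e1 := hS 1 hℓ.one_lt Q c hc
          rw [zero_mul, add_zero] at e0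
          have hc1 := hcast 1
          rw [Nat.cast_one, one_mul] at hc1
          rw [← hc1] at e1
          have hxc2 : (x : ZMod (ℓ ^ (k' + 1))) = 2 * (y : ZMod (ℓ ^ (k' + 1))) := by
            rw [hxc, h2]; norm_num
          have hr : range ℓ = {0, 1} := by rw [h2]; rfl
          rw [hmapsum, hr, Finset.sum_pair (by norm_num), Finset.sum_pair (by norm_num), hhf, hxc2]
          rw [hhf] at e0 e1
          have h5 : c (2 * (y : ZMod (ℓ ^ (k' + 1)))) = c (y : ZMod (ℓ ^ (k' + 1))) +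
              c ((y : ZMod (ℓ ^ (k' + 1))) + ((ℓ ^ k' : ℕ) : ZMod (ℓ ^ (k' + 1)))) +
                c ((ℓ ^ k' : ℕ) : ZMod (ℓ ^ (k' + 1))) := by
            rw [h3, add_assoc, hh, add_zero]
          rw [h5, e0, e1, add_nsmul, add_nsmul, one_nsmul]
          abel
      · refine ⟨∑ i ∈ range ℓ, S i, 0, fun _ => rfl, ?_⟩
        intro Q _ c hc
        have hn2 : ¬ 2 ∣ ℓ ^ (k' + 1) := by
          intro h
          exact h2 ((Nat.prime_dvd_prime_iff_eq Nat.prime_two hℓ).mp
            (Nat.prime_two.dvd_of_dvd_pow h)).symm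
        rw [hmapsum, zero_smul, add_zero, hxc, ← hc.odd ℓ (ℓ ^ k') hℓ h2 hd]
        refine sum_congr rfl fun i hi => ?_
        have hi' := mem_range.mp hi
        rw [hcast, hS i hi' Q c hc, hn i hi' hn2, zero_smul, add_zero]
  intro a ha
  obtain ⟨S, n, hn, hS⟩ := key _ a.val
    (Nat.pos_of_ne_zero fun h => ha ((ZMod.val_eq_zero a).mp h)) (ZMod.val_lt a) rfl
  refine ⟨S, n, hn, fun Q _ c hc => ?_⟩
  have := hS Q c hc
  rwa [ZMod.natCast_zmod_val] at this

/-- twice an odd level -/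
lemma gp_two_mul {m' e : ℕ} [NeZero m'] (hodd : ¬ 2 ∣ m') (h : GP m' m' 1) (he : e = 2) :
    GP (e * m') m' e := by
  subst he
  have : NeZero (2 * m') := ⟨Nat.mul_ne_zero two_ne_zero (NeZero.ne m')⟩
  have hhf : 2 * m' / 2 = m' := Nat.mul_div_cancel_left m' (by norm_num)
  -- even elements
  have heven : ∀ b : ZMod m', b ≠ 0 → ∃ (S : Multiset (ZMod m')ˣ),
      ∀ (Q : Type) [AddCommGroup Q] (c : ZMod (2 * m') → Q), OD c →
        c (iota 2 b) = (S.map fun u : (ZMod m')ˣ => c (iota 2 (u : ZMod m'))).sum := by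
    intro b hb
    obtain ⟨S, n, hn, hS⟩ := h b hb
    refine ⟨S, fun Q _ c hc => ?_⟩
    have := hS Q (fun b => c (iota 2 b)) (hc.comp_iota rfl)
    simp only [iota_one, hn hodd, zero_smul, add_zero] at this
    exact this
  intro a ha
  by_cases hpar : 2 ∣ a.val
  · obtain ⟨x, hx⟩ := hpar
    have hax : a = iota 2 (x : ZMod m') := by
      rw [iota_natCast rfl, ← hx, ZMod.natCast_zmod_val]
    have hb : (x : ZMod m') ≠ 0 := by
      intro h0
      apply ha
      rw [hax, h0, iota_zero]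
    obtain ⟨S, hS⟩ := heven _ hb
    refine ⟨S, 0, fun _ => rfl, fun Q _ c hc => ?_⟩
    rw [zero_smul, add_zero, ← hS Q c hc, ← hax]
  · have hd2 : 2 * m' = 2 * m' := rfl
    by_cases h2a : 2 * a = 0
    · -- a is the element of order two
      have ham : a = (m' : ZMod (2 * m')) := by
        apply half_unique (by rw [← two_mul]; exact h2a) _ ha
        · intro h0
          rw [ZMod.natCast_eq_zero_iff] at h0
          have := Nat.le_of_dvd (NeZero.pos m') h0
          have := NeZero.pos m'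
          omega
        · have : ((2 * m' : ℕ) : ZMod (2 * m')) = 0 := by simp
          rw [← this]; push_cast; ring
      refine ⟨0, 1, fun h => absurd (Dvd.intro m' rfl) h, fun Q _ c hc => ?_⟩
      rw [hhf, Multiset.map_zero, Multiset.sum_zero, zero_add, one_smul, ham]
    · -- a odd
      set x := a.val with hx
      have hax : a = ((x : ℕ) : ZMod (2 * m')) := (ZMod.natCast_zmod_val a).symm
      obtain ⟨y, hy⟩ : 2 ∣ x + m' := by omega
      have h2a' : 2 * a = iota 2 (x : ZMod m') := by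
        rw [iota_natCast rfl, hax]; push_cast; ring
      have hb1 : (x : ZMod m') ≠ 0 := by
        intro h0
        apply h2a
        rw [h2a', h0, iota_zero]
      have ham : a + (m' : ZMod (2 * m')) = iota 2 (y : ZMod m') := by
        rw [iota_natCast rfl, ← hy, hax]; push_cast; ring
      have hm2 : (2 : ZMod (2 * m')) * (m' : ZMod (2 * m')) = 0 := by
        have : ((2 * m' : ℕ) : ZMod (2 * m')) = 0 := by simp
        rw [← this]; push_cast; ring
      have hb2 : (y : ZMod m') ≠ 0 := by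
        intro h0
        apply h2a
        rw [h0, iota_zero] at ham
        linear_combination (2 : ZMod (2 * m')) * ham - hm2
      obtain ⟨S1, hS1⟩ := heven _ hb1
      obtain ⟨S2, hS2⟩ := heven (-(y : ZMod m')) (neg_ne_zero.mpr hb2)
      refine ⟨S1 + S2, 1, fun h => absurd (Dvd.intro m' rfl) h, fun Q _ c hc => ?_⟩
      have h3 := hc.two m' rfl a
      rw [hhf, Multiset.map_add, Multiset.sum_add, one_smul, ← hS1 Q c hc, ← hS2 Q c hc,
        iota_neg rfl, hc.neg, ← ham, ← h2a']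
      rw [← eq_sub_iff_add_eq] at h3
      rw [h3]; abel

end Pool.Agent.H916T
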